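import Pool.Agent.T9h88.IO.Spec

/-!
# Derivations for `runT`
-/

set_option autoImplicit false

namespace Pool.Agent.T9h96.IO

open Pool.Agent.T9h88.IO
open Pool.Agent.T9h88.IO.Tree

/-! ### Assignments -/

/-- an assignment from a list of pairs -/
def asg : List (ℕ × Tree) → ℕ → Tree
  | [], _ => nil
  | (i, t) :: l, x => if x = i then t else asg l x

theorem asg_le {K : ℕ} : ∀ l : List (ℕ × Tree), (∀ p ∈ l, p.2.size ≤ K) → ∀ x, (asg l x).size ≤ K
  | [], _, x => by simp [asg, Tree.size]
  | (i, t) :: l, h, x => by
      rw [asg]
      split_ifs
      · exact h (i, t) (by simp)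
      · exact asg_le l (fun p hp => h p (by simp [hp])) x

section

variable {Cs : List Cl} {N : List At} {ν : Tree → ℕ} {M K : ℕ}

/-- use of a clause -/
theorem stp (h : Ctx N ν M K) (hC : ∀ c ∈ clTree, c ∈ Cs) {c : Cl} (hc : c ∈ clTree)
    (l : List (ℕ × Tree)) (hl : ∀ p ∈ l, p.2.size ≤ K)
    (hp : (∀ x y z, asg l z = node (asg l x) (asg l y) →
        Der Cs N N.length (nd (ν (asg l x)) (ν (asg l y)) (ν (asg l z)))) →
      (∀ x, asg l x = nil → Der Cs N N.length (nl (ν (asg l x)))) →
      ∀ p ∈ c.prem, Der Cs N N.length (p.ren (fun x => ν (asg l x)))) {q : At}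
    (hq : c.concl.ren (fun x => ν (asg l x)) = q) : Der Cs N N.length q := by
  subst hq
  refine Der.step _ (hC c hc) (fun x => h.lt _ (asg_le l hl x)) (hp ?_ ?_)
  · intro x y z e
    have hz := asg_le l hl z
    rw [e] at hz ⊢
    exact Der.base (h.node _ _ hz)
  · intro x e
    rw [e]
    exact Der.base h.nil

theorem mEq {c : Cl} (i : ℕ) (h : clEq[i]? = some c) : c ∈ clTree := by
  have := List.mem_of_getElem? h
  simp [clTree, this]

theorem mFree {c : Cl} (i : ℕ) (h : clFree[i]? = some c) : c ∈ clTree := by
  have := List.mem_of_getElem? h
  simp [clTree, this]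

theorem mFfor {c : Cl} (i : ℕ) (h : clFfor[i]? = some c) : c ∈ clTree := by
  have := List.mem_of_getElem? h
  simp [clTree, this]

theorem mSub {c : Cl} (i : ℕ) (h : clSub[i]? = some c) : c ∈ clTree := by
  have := List.mem_of_getElem? h
  simp [clTree, this]

theorem mSw {c : Cl} (i : ℕ) (h : clSw[i]? = some c) : c ∈ clTree := by
  have := List.mem_of_getElem? h
  simp [clTree, this]

theorem mLine {c : Cl} (i : ℕ) (h : clLine[i]? = some c) : c ∈ clTree := by
  have := List.mem_of_getElem? h
  simp [clTree, this]

theorem allcons {α : Type} {P : α → Prop} {a : α} {l : List α} (h : P a) (hl : ∀ x ∈ l, P x) :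
    ∀ x ∈ a :: l, P x := by
  intro x hx
  rcases List.mem_cons.1 hx with rfl | hx
  · exact h
  · exact hl x hx

theorem allnil {α : Type} {P : α → Prop} : ∀ x ∈ ([] : List α), P x := by simp

theorem eq_ft : ∀ a b : Tree, eqT a b = ff ∨ eqT a b = tt
  | nil, nil => Or.inr rfl
  | nil, node _ _ => Or.inl rfl
  | node _ _, nil => Or.inl rfl
  | node a b, node c d => by
      rw [eqT]
      split_ifs
      · exact Or.inl rfl
      · exact eq_ft b d

theorem der_eq (h : Ctx N ν M K) (hC : ∀ c ∈ clTree, c ∈ Cs) (hK : 1 ≤ K) : ∀ a b : Tree,
    a.size ≤ K → b.size ≤ K → Der Cs N N.length (o3 iEq (ν a) (ν b) (ν (eqT a b)))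
  | nil, nil, ha, hb => by
      refine stp h hC (mEq 0 rfl) [(3, tt)] ?_ ?_ rfl
      · simp only [List.forall_mem_cons, List.not_mem_nil, false_imp_iff, implies_true, and_true,
          Tree.size]
        omega
      · intro hn hz
        repeat (first
          | exact allnil
          | refine allcons (by first | exact hn _ _ _ rfl | exact hz _ rfl | assumption) ?_)
  | nil, node a b, ha, hb => by
      simp only [Tree.size] at ha hb
      refine stp h hC (mEq 1 rfl) [(1, a), (2, b), (3, node a b)] ?_ ?_ rfl
      · simp only [List.forall_mem_cons, List.not_mem_nil, false_imp_iff, implies_true, and_true,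
          Tree.size]
        omega
      · intro hn hz
        repeat (first
          | exact allnil
          | refine allcons (by first | exact hn _ _ _ rfl | exact hz _ rfl | assumption) ?_)
  | node a b, nil, ha, hb => by
      simp only [Tree.size] at ha hb
      refine stp h hC (mEq 2 rfl) [(1, a), (2, b), (3, node a b)] ?_ ?_ rfl
      · simp only [List.forall_mem_cons, List.not_mem_nil, false_imp_iff, implies_true, and_true,
          Tree.size]
        omega
      · intro hn hz
        repeat (first
          | exact allnil
          | refine allcons (by first | exact hn _ _ _ rfl | exact hz _ rfl | assumption) ?_)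
  | node a b, node c d, ha, hb => by
      simp only [Tree.size] at ha hb
      have h1 := der_eq h hC hK a c (by omega) (by omega)
      have h2 := der_eq h hC hK b d (by omega) (by omega)
      rcases eq_ft a c with e | e
      · rw [e] at h1
        rw [show eqT (node a b) (node c d) = ff by rw [eqT, if_pos e]]
        refine stp h hC (mEq 3 rfl) [(0, a), (1, b), (2, node a b), (3, c), (4, d), (5, node c d),
          (6, ff)] ?_ ?_ rfl
        · simp only [List.forall_mem_cons, List.not_mem_nil, false_imp_iff, implies_true, and_true,
            Tree.size]
          omega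
        · intro hn hz
          repeat (first
            | exact allnil
            | refine allcons (by first | exact hn _ _ _ rfl | exact hz _ rfl | assumption) ?_)
      · rw [e] at h1
        have hs : (eqT b d).size ≤ 1 := by rcases eq_ft b d with e' | e' <;> rw [e'] <;> decide
        rw [show eqT (node a b) (node c d) = eqT b d by rw [eqT, if_neg (by rw [e]; simp)]]
        refine stp h hC (mEq 4 rfl) [(0, a), (1, b), (2, node a b), (3, c), (4, d), (5, node c d),
          (6, tt), (9, eqT b d)] ?_ ?_ rfl
        · simp only [List.forall_mem_cons, List.not_mem_nil, false_imp_iff, implies_true, and_true,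
            Tree.size]
          omega
        · intro hn hz
          repeat (first
            | exact allnil
            | refine allcons (by first | exact hn _ _ _ rfl | exact hz _ rfl | assumption) ?_)

theorem sz_ft {a : Tree} (h : a = ff ∨ a = tt) : a.size ≤ 1 := by
  rcases h with h | h <;> rw [h] <;> decide

theorem mem_ft (x : Tree) : ∀ a : Tree, memT x a = ff ∨ memT x a = tt
  | nil => Or.inl rfl
  | node v r => by
      rw [memT]
      split_ifs
      · exact mem_ft x r
      · exact Or.inr rfl

theorem der_mem (h : Ctx N ν M K) (hC : ∀ c ∈ clTree, c ∈ Cs) (hK : 1 ≤ K) (x : Tree)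
    (hx : x.size ≤ K) : ∀ a : Tree,
    a.size ≤ K → Der Cs N N.length (o3 iMem (ν x) (ν a) (ν (memT x a)))
  | nil, ha => by
      refine stp h hC (mEq 5 rfl) [(0, x)] ?_ ?_ rfl
      · simp only [List.forall_mem_cons, List.not_mem_nil, false_imp_iff, implies_true, and_true,
          Tree.size]
        omega
      · intro hn hz
        repeat (first
          | exact allnil
          | refine allcons (by first | exact hn _ _ _ rfl | exact hz _ rfl | assumption) ?_)
  | node v r, ha => by
      simp only [Tree.size] at ha
      have h1 := der_eq h hC hK x v (by omega) (by omega)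
      rcases eq_ft x v with e | e
      · rw [e] at h1
        have h2 := der_mem h hC hK x hx r (by omega)
        have hs := sz_ft (mem_ft x r)
        rw [show memT x (node v r) = memT x r by rw [memT, if_pos e]]
        refine stp h hC (mEq 6 rfl) [(0, x), (1, v), (2, r), (3, node v r), (4, ff), (5, memT x r)]
          ?_ ?_ rfl
        · simp only [List.forall_mem_cons, List.not_mem_nil, false_imp_iff, implies_true, and_true,
            Tree.size]
          omega
        · intro hn hz
          repeat (first
            | exact allnil
            | refine allcons (by first | exact hn _ _ _ rfl | exact hz _ rfl | assumption) ?_)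
      · rw [e] at h1
        rw [show memT x (node v r) = tt by rw [memT, if_neg (by rw [e]; simp)]]
        refine stp h hC (mEq 7 rfl) [(0, x), (1, v), (2, r), (3, node v r), (4, tt), (8, tt)]
          ?_ ?_ rfl
        · simp only [List.forall_mem_cons, List.not_mem_nil, false_imp_iff, implies_true, and_true,
            Tree.size]
          omega
        · intro hn hz
          repeat (first
            | exact allnil
            | refine allcons (by first | exact hn _ _ _ rfl | exact hz _ rfl | assumption) ?_)

theorem free_ft (x : Tree) : ∀ a : Tree, freeT x a = ff ∨ freeT x a = tt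
  | nil => Or.inl rfl
  | node _ nil => Or.inl (by rw [freeT])
  | node nil (node _ vs) => by
      rw [freeT]
      exact mem_ft x vs
  | node (node nil _) (node a b) => by
      rw [freeT]
      split_ifs
      · exact free_ft x b
      · exact Or.inr rfl
  | node (node (node _ _) _) (node u a) => by
      rw [freeT]
      split_ifs
      · exact free_ft x a
      · exact Or.inl rfl

theorem der_free (h : Ctx N ν M K) (hC : ∀ c ∈ clTree, c ∈ Cs) (hK : 1 ≤ K) (x : Tree)
    (hx : x.size ≤ K) : ∀ a : Tree,
    a.size ≤ K → Der Cs N N.length (o3 iFree (ν x) (ν a) (ν (freeT x a)))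
  | nil, ha => by
      refine stp h hC (mFree 0 rfl) [(0, x)] ?_ ?_ rfl
      · simp only [List.forall_mem_cons, List.not_mem_nil, false_imp_iff, implies_true, and_true,
          Tree.size]
        omega
      · intro hn hz
        repeat (first
          | exact allnil
          | refine allcons (by first | exact hn _ _ _ rfl | exact hz _ rfl | assumption) ?_)
  | node t nil, ha => by
      simp only [Tree.size] at ha
      rw [show freeT x (node t nil) = ff by rw [freeT]]
      refine stp h hC (mFree 1 rfl) [(0, x), (1, t), (3, node t nil)] ?_ ?_ rfl
      · simp only [List.forall_mem_cons, List.not_mem_nil, false_imp_iff, implies_true, and_true,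
          Tree.size]
        omega
      · intro hn hz
        repeat (first
          | exact allnil
          | refine allcons (by first | exact hn _ _ _ rfl | exact hz _ rfl | assumption) ?_)
  | node nil (node k vs), ha => by
      simp only [Tree.size] at ha
      have h1 := der_mem h hC hK x hx vs (by omega)
      have hs := sz_ft (mem_ft x vs)
      rw [show freeT x (node nil (node k vs)) = memT x vs by rw [freeT]]
      refine stp h hC (mFree 2 rfl) [(0, x), (2, k), (3, vs), (4, node k vs),
        (5, node nil (node k vs)), (6, memT x vs)] ?_ ?_ rfl
      · simp only [List.forall_mem_cons, List.not_mem_nil, false_imp_iff, implies_true, and_true,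
          Tree.size]
        omega
      · intro hn hz
        repeat (first
          | exact allnil
          | refine allcons (by first | exact hn _ _ _ rfl | exact hz _ rfl | assumption) ?_)
  | node (node nil c) (node a b), ha => by
      simp only [Tree.size] at ha
      have h1 := der_free h hC hK x hx a (by omega)
      rcases free_ft x a with e | e
      · rw [e] at h1
        have h2 := der_free h hC hK x hx b (by omega)
        have hs := sz_ft (free_ft x b)
        rw [show freeT x (node (node nil c) (node a b)) = freeT x b by rw [freeT, if_pos e]]
        refine stp h hC (mFree 3 rfl) [(0, x), (2, c), (3, node nil c), (4, a), (5, b),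
          (6, node a b), (7, node (node nil c) (node a b)), (9, freeT x b)]
          ?_ ?_ rfl
        · simp only [List.forall_mem_cons, List.not_mem_nil, false_imp_iff, implies_true, and_true,
            Tree.size]
          omega
        · intro hn hz
          repeat (first
            | exact allnil
            | refine allcons (by first | exact hn _ _ _ rfl | exact hz _ rfl | assumption) ?_)
      · rw [e] at h1
        rw [show freeT x (node (node nil c) (node a b)) = tt by
          rw [freeT, if_neg (by rw [e]; simp)]]
        refine stp h hC (mFree 4 rfl) [(0, x), (2, c), (3, node nil c), (4, a), (5, b),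
          (6, node a b), (7, node (node nil c) (node a b)), (8, tt), (11, tt)]
          ?_ ?_ rfl
        · simp only [List.forall_mem_cons, List.not_mem_nil, false_imp_iff, implies_true, and_true,
            Tree.size]
          omega
        · intro hn hz
          repeat (first
            | exact allnil
            | refine allcons (by first | exact hn _ _ _ rfl | exact hz _ rfl | assumption) ?_)
  | node (node (node p q) c) (node u a), ha => by
      simp only [Tree.size] at ha
      have h1 := der_eq h hC hK x u (by omega) (by omega)
      rcases eq_ft x u with e | e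
      · rw [e] at h1
        have h2 := der_free h hC hK x hx a (by omega)
        have hs := sz_ft (free_ft x a)
        rw [show freeT x (node (node (node p q) c) (node u a)) = freeT x a by
          rw [freeT, if_pos e]]
        refine stp h hC (mFree 5 rfl) [(0, x), (1, p), (2, q), (3, node p q), (4, c),
          (5, node (node p q) c), (6, u), (7, a), (8, node u a),
          (9, node (node (node p q) c) (node u a)), (11, freeT x a)]
          ?_ ?_ rfl
        · simp only [List.forall_mem_cons, List.not_mem_nil, false_imp_iff, implies_true, and_true,
            Tree.size]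
          omega
        · intro hn hz
          repeat (first
            | exact allnil
            | refine allcons (by first | exact hn _ _ _ rfl | exact hz _ rfl | assumption) ?_)
      · rw [e] at h1
        rw [show freeT x (node (node (node p q) c) (node u a)) = ff by
          rw [freeT, if_neg (by rw [e]; simp)]]
        refine stp h hC (mFree 6 rfl) [(0, x), (1, p), (2, q), (3, node p q), (4, c),
          (5, node (node p q) c), (6, u), (7, a), (8, node u a),
          (9, node (node (node p q) c) (node u a)), (10, tt)]
          ?_ ?_ rfl
        · simp only [List.forall_mem_cons, List.not_mem_nil, false_imp_iff, implies_true, and_true,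
            Tree.size]
          omega
        · intro hn hz
          repeat (first
            | exact allnil
            | refine allcons (by first | exact hn _ _ _ rfl | exact hz _ rfl | assumption) ?_)

theorem ffor_ft (y x : Tree) : ∀ a : Tree, fforT y x a = ff ∨ fforT y x a = tt
  | nil => Or.inr rfl
  | node _ nil => Or.inr (by rw [fforT])
  | node nil (node _ _) => Or.inr (by rw [fforT])
  | node (node nil _) (node a b) => by
      rw [fforT]
      split_ifs
      · exact Or.inl rfl
      · exact ffor_ft y x b
  | node (node (node _ _) _) (node u a) => by
      rw [fforT]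
      split_ifs
      · exact Or.inr rfl
      · exact ffor_ft y x a
      · exact Or.inl rfl
      · exact Or.inr rfl

theorem der_ffor (h : Ctx N ν M K) (hC : ∀ c ∈ clTree, c ∈ Cs) (hK : 1 ≤ K) (y x : Tree)
    (hy : y.size ≤ K) (hx : x.size ≤ K) : ∀ a : Tree,
    a.size ≤ K → Der Cs N N.length (.op iFfor (ν y) (ν x) (ν a) (ν (fforT y x a)))
  | nil, ha => by
      refine stp h hC (mFfor 0 rfl) [(0, y), (1, x), (3, tt)] ?_ ?_ rfl
      · simp only [List.forall_mem_cons, List.not_mem_nil, false_imp_iff, implies_true, and_true,
          Tree.size]
        omega
      · intro hn hz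
        repeat (first
          | exact allnil
          | refine allcons (by first | exact hn _ _ _ rfl | exact hz _ rfl | assumption) ?_)
  | node t nil, ha => by
      simp only [Tree.size] at ha
      rw [show fforT y x (node t nil) = tt by rw [fforT]]
      refine stp h hC (mFfor 1 rfl) [(0, y), (1, x), (3, t), (4, node t nil), (5, tt)] ?_ ?_ rfl
      · simp only [List.forall_mem_cons, List.not_mem_nil, false_imp_iff, implies_true, and_true,
          Tree.size]
        omega
      · intro hn hz
        repeat (first
          | exact allnil
          | refine allcons (by first | exact hn _ _ _ rfl | exact hz _ rfl | assumption) ?_)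
  | node nil (node k vs), ha => by
      simp only [Tree.size] at ha
      rw [show fforT y x (node nil (node k vs)) = tt by rw [fforT]]
      refine stp h hC (mFfor 2 rfl) [(0, y), (1, x), (3, k), (4, vs), (5, node k vs),
        (6, node nil (node k vs)), (7, tt)] ?_ ?_ rfl
      · simp only [List.forall_mem_cons, List.not_mem_nil, false_imp_iff, implies_true, and_true,
          Tree.size]
        omega
      · intro hn hz
        repeat (first
          | exact allnil
          | refine allcons (by first | exact hn _ _ _ rfl | exact hz _ rfl | assumption) ?_)
  | node (node nil c) (node a b), ha => by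
      simp only [Tree.size] at ha
      have h1 := der_ffor h hC hK y x hy hx a (by omega)
      rcases ffor_ft y x a with e | e
      · rw [e] at h1
        rw [show fforT y x (node (node nil c) (node a b)) = ff by rw [fforT, if_pos e]]
        refine stp h hC (mFfor 3 rfl) [(0, y), (1, x), (3, c), (4, node nil c), (5, a), (6, b),
          (7, node a b), (8, node (node nil c) (node a b))]
          ?_ ?_ rfl
        · simp only [List.forall_mem_cons, List.not_mem_nil, false_imp_iff, implies_true, and_true,
            Tree.size]
          omega
        · intro hn hz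
          repeat (first
            | exact allnil
            | refine allcons (by first | exact hn _ _ _ rfl | exact hz _ rfl | assumption) ?_)
      · rw [e] at h1
        have h2 := der_ffor h hC hK y x hy hx b (by omega)
        have hs := sz_ft (ffor_ft y x b)
        rw [show fforT y x (node (node nil c) (node a b)) = fforT y x b by
          rw [fforT, if_neg (by rw [e]; simp)]]
        refine stp h hC (mFfor 4 rfl) [(0, y), (1, x), (3, c), (4, node nil c), (5, a), (6, b),
          (7, node a b), (8, node (node nil c) (node a b)), (9, tt), (12, fforT y x b)]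
          ?_ ?_ rfl
        · simp only [List.forall_mem_cons, List.not_mem_nil, false_imp_iff, implies_true, and_true,
            Tree.size]
          omega
        · intro hn hz
          repeat (first
            | exact allnil
            | refine allcons (by first | exact hn _ _ _ rfl | exact hz _ rfl | assumption) ?_)
  | node (node (node p q) c) (node u a), ha => by
      simp only [Tree.size] at ha
      have h1 := der_eq h hC hK u x (by omega) (by omega)
      rcases eq_ft u x with e | e
      · rw [e] at h1
        have h2 := der_free h hC hK x hx a (by omega)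
        rcases free_ft x a with e2 | e2
        · rw [e2] at h2
          rw [show fforT y x (node (node (node p q) c) (node u a)) = tt by
            rw [fforT, if_pos e, if_pos e2]]
          refine stp h hC (mFfor 6 rfl) [(0, y), (1, x), (2, p), (3, q), (4, node p q), (5, c),
            (6, node (node p q) c), (7, u), (8, a), (9, node u a),
            (10, node (node (node p q) c) (node u a)), (13, tt)]
            ?_ ?_ rfl
          · simp only [List.forall_mem_cons, List.not_mem_nil, false_imp_iff, implies_true, and_true,
              Tree.size]
            omega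
          · intro hn hz
            repeat (first
              | exact allnil
              | refine allcons (by first | exact hn _ _ _ rfl | exact hz _ rfl | assumption) ?_)
        · rw [e2] at h2
          have h3 := der_eq h hC hK u y (by omega) (by omega)
          rcases eq_ft u y with e3 | e3
          · rw [e3] at h3
            have h4 := der_ffor h hC hK y x hy hx a (by omega)
            have hs := sz_ft (ffor_ft y x a)
            rw [show fforT y x (node (node (node p q) c) (node u a)) = fforT y x a by
              rw [fforT, if_pos e, if_neg (by rw [e2]; simp), if_pos e3]]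
            refine stp h hC (mFfor 7 rfl) [(0, y), (1, x), (2, p), (3, q), (4, node p q), (5, c),
              (6, node (node p q) c), (7, u), (8, a), (9, node u a),
              (10, node (node (node p q) c) (node u a)), (12, tt), (16, fforT y x a)]
              ?_ ?_ rfl
            · simp only [List.forall_mem_cons, List.not_mem_nil, false_imp_iff, implies_true, and_true,
                Tree.size]
              omega
            · intro hn hz
              repeat (first
                | exact allnil
                | refine allcons (by first | exact hn _ _ _ rfl | exact hz _ rfl | assumption) ?_)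
          · rw [e3] at h3
            rw [show fforT y x (node (node (node p q) c) (node u a)) = ff by
              rw [fforT, if_pos e, if_neg (by rw [e2]; simp), if_neg (by rw [e3]; simp)]]
            refine stp h hC (mFfor 8 rfl) [(0, y), (1, x), (2, p), (3, q), (4, node p q), (5, c),
              (6, node (node p q) c), (7, u), (8, a), (9, node u a),
              (10, node (node (node p q) c) (node u a)), (12, tt), (15, tt)]
              ?_ ?_ rfl
            · simp only [List.forall_mem_cons, List.not_mem_nil, false_imp_iff, implies_true, and_true,
                Tree.size]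
              omega
            · intro hn hz
              repeat (first
                | exact allnil
                | refine allcons (by first | exact hn _ _ _ rfl | exact hz _ rfl | assumption) ?_)
      · rw [e] at h1
        rw [show fforT y x (node (node (node p q) c) (node u a)) = tt by
          rw [fforT, if_neg (by rw [e]; simp)]]
        refine stp h hC (mFfor 5 rfl) [(0, y), (1, x), (2, p), (3, q), (4, node p q), (5, c),
          (6, node (node p q) c), (7, u), (8, a), (9, node u a),
          (10, node (node (node p q) c) (node u a)), (11, tt), (15, tt)]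
          ?_ ?_ rfl
        · simp only [List.forall_mem_cons, List.not_mem_nil, false_imp_iff, implies_true, and_true,
            Tree.size]
          omega
        · intro hn hz
          repeat (first
            | exact allnil
            | refine allcons (by first | exact hn _ _ _ rfl | exact hz _ rfl | assumption) ?_)

theorem der_subV (h : Ctx N ν M K) (hC : ∀ c ∈ clTree, c ∈ Cs) (hK : 1 ≤ K) (x y : Tree)
    (hx : x.size ≤ K) (hy : y.size ≤ K) : ∀ a : Tree, a.size ≤ K → (subV x y a).size ≤ K →
    Der Cs N N.length (.op iSubV (ν x) (ν y) (ν a) (ν (subV x y a)))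
  | nil, ha, _ => by
      refine stp h hC (mSub 0 rfl) [(0, x), (1, y)] ?_ ?_ rfl
      · simp only [List.forall_mem_cons, List.not_mem_nil, false_imp_iff, implies_true, and_true,
          Tree.size]
        omega
      · intro hn hz
        repeat (first
          | exact allnil
          | refine allcons (by first | exact hn _ _ _ rfl | exact hz _ rfl | assumption) ?_)
  | node v r, ha, hr => by
      simp only [Tree.size] at ha
      have h1 := der_eq h hC hK v x (by omega) (by omega)
      rcases eq_ft v x with e | e
      · rw [e] at h1
        have e' : subV x y (node v r) = node v (subV x y r) := by rw [subV, if_pos e]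
        rw [e'] at hr ⊢
        simp only [Tree.size] at hr
        have h2 := der_subV h hC hK x y hx hy r (by omega) (by omega)
        refine stp h hC (mSub 1 rfl) [(0, x), (1, y), (2, v), (3, r), (4, node v r),
          (6, subV x y r), (7, node v (subV x y r))] ?_ ?_ rfl
        · simp only [List.forall_mem_cons, List.not_mem_nil, false_imp_iff, implies_true, and_true,
            Tree.size]
          omega
        · intro hn hz
          repeat (first
            | exact allnil
            | refine allcons (by first | exact hn _ _ _ rfl | exact hz _ rfl | assumption) ?_)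
      · rw [e] at h1
        have e' : subV x y (node v r) = node y (subV x y r) := by
          rw [subV, if_neg (by rw [e]; simp)]
        rw [e'] at hr ⊢
        simp only [Tree.size] at hr
        have h2 := der_subV h hC hK x y hx hy r (by omega) (by omega)
        refine stp h hC (mSub 2 rfl) [(0, x), (1, y), (2, v), (3, r), (4, node v r), (5, tt),
          (6, subV x y r), (7, node y (subV x y r))] ?_ ?_ rfl
        · simp only [List.forall_mem_cons, List.not_mem_nil, false_imp_iff, implies_true, and_true,
            Tree.size]
          omega
        · intro hn hz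
          repeat (first
            | exact allnil
            | refine allcons (by first | exact hn _ _ _ rfl | exact hz _ rfl | assumption) ?_)

theorem der_sub (h : Ctx N ν M K) (hC : ∀ c ∈ clTree, c ∈ Cs) (hK : 1 ≤ K) (x y : Tree)
    (hx : x.size ≤ K) (hy : y.size ≤ K) : ∀ a : Tree, a.size ≤ K → (subT x y a).size ≤ K →
    Der Cs N N.length (.op iSub (ν x) (ν y) (ν a) (ν (subT x y a)))
  | nil, ha, _ => by
      refine stp h hC (mSub 3 rfl) [(0, x), (1, y)] ?_ ?_ rfl
      · simp only [List.forall_mem_cons, List.not_mem_nil, false_imp_iff, implies_true, and_true,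
          Tree.size]
        omega
      · intro hn hz
        repeat (first
          | exact allnil
          | refine allcons (by first | exact hn _ _ _ rfl | exact hz _ rfl | assumption) ?_)
  | node t nil, ha, _ => by
      simp only [Tree.size] at ha
      rw [show subT x y (node t nil) = node t nil by rw [subT]]
      refine stp h hC (mSub 4 rfl) [(0, x), (1, y), (3, t), (4, node t nil)] ?_ ?_ rfl
      · simp only [List.forall_mem_cons, List.not_mem_nil, false_imp_iff, implies_true, and_true,
          Tree.size]
        omega
      · intro hn hz
        repeat (first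
          | exact allnil
          | refine allcons (by first | exact hn _ _ _ rfl | exact hz _ rfl | assumption) ?_)
  | node nil (node k vs), ha, hr => by
      simp only [Tree.size] at ha
      have e' : subT x y (node nil (node k vs)) = node nil (node k (subV x y vs)) := by rw [subT]
      rw [e'] at hr ⊢
      simp only [Tree.size] at hr
      have h1 := der_subV h hC hK x y hx hy vs (by omega) (by omega)
      refine stp h hC (mSub 5 rfl) [(0, x), (1, y), (3, k), (4, vs), (5, node k vs),
        (6, node nil (node k vs)), (7, subV x y vs), (8, node k (subV x y vs)),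
        (9, node nil (node k (subV x y vs)))] ?_ ?_ rfl
      · simp only [List.forall_mem_cons, List.not_mem_nil, false_imp_iff, implies_true, and_true,
          Tree.size]
        omega
      · intro hn hz
        repeat (first
          | exact allnil
          | refine allcons (by first | exact hn _ _ _ rfl | exact hz _ rfl | assumption) ?_)
  | node (node nil c) (node a b), ha, hr => by
      simp only [Tree.size] at ha
      have e' : subT x y (node (node nil c) (node a b)) =
        node (node nil c) (node (subT x y a) (subT x y b)) := by rw [subT]
      rw [e'] at hr ⊢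
      simp only [Tree.size] at hr
      have h1 := der_sub h hC hK x y hx hy a (by omega) (by omega)
      have h2 := der_sub h hC hK x y hx hy b (by omega) (by omega)
      refine stp h hC (mSub 6 rfl) [(0, x), (1, y), (3, c), (4, node nil c), (5, a), (6, b),
        (7, node a b), (8, node (node nil c) (node a b)), (9, subT x y a), (10, subT x y b),
        (11, node (subT x y a) (subT x y b)),
        (12, node (node nil c) (node (subT x y a) (subT x y b)))]
        ?_ ?_ rfl
      · simp only [List.forall_mem_cons, List.not_mem_nil, false_imp_iff, implies_true, and_true,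
          Tree.size]
        omega
      · intro hn hz
        repeat (first
          | exact allnil
          | refine allcons (by first | exact hn _ _ _ rfl | exact hz _ rfl | assumption) ?_)
  | node (node (node p q) c) (node u a), ha, hr => by
      simp only [Tree.size] at ha
      have h1 := der_eq h hC hK u x (by omega) (by omega)
      rcases eq_ft u x with e | e
      · rw [e] at h1
        have e' : subT x y (node (node (node p q) c) (node u a)) =
          node (node (node p q) c) (node u (subT x y a)) := by rw [subT, if_pos e]
        rw [e'] at hr ⊢
        simp only [Tree.size] at hr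
        have h2 := der_sub h hC hK x y hx hy a (by omega) (by omega)
        refine stp h hC (mSub 7 rfl) [(0, x), (1, y), (2, p), (3, q), (4, node p q), (5, c),
          (6, node (node p q) c), (7, u), (8, a), (9, node u a),
          (10, node (node (node p q) c) (node u a)), (12, subT x y a), (13, node u (subT x y a)),
          (14, node (node (node p q) c) (node u (subT x y a)))]
          ?_ ?_ rfl
        · simp only [List.forall_mem_cons, List.not_mem_nil, false_imp_iff, implies_true, and_true,
            Tree.size]
          omega
        · intro hn hz
          repeat (first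
            | exact allnil
            | refine allcons (by first | exact hn _ _ _ rfl | exact hz _ rfl | assumption) ?_)
      · rw [e] at h1
        rw [show subT x y (node (node (node p q) c) (node u a)) =
          node (node (node p q) c) (node u a) by rw [subT, if_neg (by rw [e]; simp)]]
        refine stp h hC (mSub 8 rfl) [(0, x), (1, y), (2, p), (3, q), (4, node p q), (5, c),
          (6, node (node p q) c), (7, u), (8, a), (9, node u a),
          (10, node (node (node p q) c) (node u a)), (11, tt)]
          ?_ ?_ rfl
        · simp only [List.forall_mem_cons, List.not_mem_nil, false_imp_iff, implies_true, and_true,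
            Tree.size]
          omega
        · intro hn hz
          repeat (first
            | exact allnil
            | refine allcons (by first | exact hn _ _ _ rfl | exact hz _ rfl | assumption) ?_)

theorem sw1_ft (p v w : Tree) : sw1 p v w = ff ∨ sw1 p v w = tt := by
  cases p with
  | nil => exact Or.inl rfl
  | node x y =>
    rw [sw1]
    split_ifs
    · exact Or.inl rfl
    · exact eq_ft w y
    · exact Or.inr rfl

theorem der_sw1 (h : Ctx N ν M K) (hC : ∀ c ∈ clTree, c ∈ Cs) (hK : 1 ≤ K) (p v w : Tree)
    (hp : p.size ≤ K) (hv : v.size ≤ K) (hw : w.size ≤ K) :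
    Der Cs N N.length (.op iSw1 (ν p) (ν v) (ν w) (ν (sw1 p v w))) := by
  cases p with
  | nil =>
    refine stp h hC (mSw 0 rfl) [(1, v), (2, w)] ?_ ?_ rfl
    · simp only [List.forall_mem_cons, List.not_mem_nil, false_imp_iff, implies_true, and_true]
      omega
    · intro hn hz
      repeat (first
        | exact allnil
        | refine allcons (by first | exact hn _ _ _ rfl | exact hz _ rfl) ?_)
  | node x y =>
    simp only [Tree.size] at hp
    have h1 := der_eq h hC hK v w (by omega) (by omega)
    rcases eq_ft v w with e | e
    · rw [e] at h1
      have h2 := der_eq h hC hK v x (by omega) (by omega)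
      rcases eq_ft v x with e2 | e2
      · rw [e2] at h2
        rw [show sw1 (node x y) v w = ff by rw [sw1, if_pos e, if_pos e2]]
        refine stp h hC (mSw 2 rfl) [(0, node x y), (1, v), (2, w), (3, x), (4, y)]
          ?_ ?_ rfl
        · simp only [List.forall_mem_cons, List.not_mem_nil, false_imp_iff, implies_true, and_true,
            Tree.size]
          omega
        · intro hn hz
          repeat (first
            | exact allnil
            | refine allcons (by first | exact hn _ _ _ rfl | exact hz _ rfl | assumption) ?_)
      · rw [e2] at h2
        have h3 := der_eq h hC hK w y (by omega) (by omega)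
        have hs := sz_ft (eq_ft w y)
        rw [show sw1 (node x y) v w = eqT w y by
          rw [sw1, if_pos e, if_neg (by rw [e2]; simp)]]
        refine stp h hC (mSw 3 rfl) [(0, node x y), (1, v), (2, w), (3, x), (4, y), (6, tt),
          (9, eqT w y)] ?_ ?_ rfl
        · simp only [List.forall_mem_cons, List.not_mem_nil, false_imp_iff, implies_true, and_true,
            Tree.size]
          omega
        · intro hn hz
          repeat (first
            | exact allnil
            | refine allcons (by first | exact hn _ _ _ rfl | exact hz _ rfl | assumption) ?_)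
    · rw [e] at h1
      rw [show sw1 (node x y) v w = tt by rw [sw1, if_neg (by rw [e]; simp)]]
      refine stp h hC (mSw 1 rfl) [(0, node x y), (1, v), (2, w), (3, x), (4, y), (5, tt),
        (9, tt)] ?_ ?_ rfl
      · simp only [List.forall_mem_cons, List.not_mem_nil, false_imp_iff, implies_true, and_true,
          Tree.size]
        omega
      · intro hn hz
        repeat (first
          | exact allnil
          | refine allcons (by first | exact hn _ _ _ rfl | exact hz _ rfl | assumption) ?_)

theorem sw_ft (p : Tree) : ∀ a b : Tree, swT p a b = ff ∨ swT p a b = tt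
  | nil, nil => Or.inr rfl
  | nil, node _ _ => Or.inl rfl
  | node _ _, nil => Or.inl rfl
  | node v r, node w s => by
      rw [swT]
      split_ifs
      · exact Or.inl rfl
      · exact sw_ft p r s

theorem der_sw (h : Ctx N ν M K) (hC : ∀ c ∈ clTree, c ∈ Cs) (hK : 1 ≤ K) (p : Tree)
    (hp : p.size ≤ K) : ∀ a b : Tree, a.size ≤ K → b.size ≤ K →
    Der Cs N N.length (.op iSw (ν p) (ν a) (ν b) (ν (swT p a b)))
  | nil, nil, ha, hb => by
      refine stp h hC (mSw 4 rfl) [(0, p), (3, tt)] ?_ ?_ rfl
      · simp only [List.forall_mem_cons, List.not_mem_nil, false_imp_iff, implies_true, and_true,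
          Tree.size]
        omega
      · intro hn hz
        repeat (first
          | exact allnil
          | refine allcons (by first | exact hn _ _ _ rfl | exact hz _ rfl | assumption) ?_)
  | nil, node a b, ha, hb => by
      simp only [Tree.size] at ha hb
      refine stp h hC (mSw 5 rfl) [(0, p), (2, a), (3, b), (4, node a b)] ?_ ?_ rfl
      · simp only [List.forall_mem_cons, List.not_mem_nil, false_imp_iff, implies_true, and_true,
          Tree.size]
        omega
      · intro hn hz
        repeat (first
          | exact allnil
          | refine allcons (by first | exact hn _ _ _ rfl | exact hz _ rfl | assumption) ?_)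
  | node a b, nil, ha, hb => by
      simp only [Tree.size] at ha hb
      refine stp h hC (mSw 6 rfl) [(0, p), (1, a), (2, b), (3, node a b)] ?_ ?_ rfl
      · simp only [List.forall_mem_cons, List.not_mem_nil, false_imp_iff, implies_true, and_true,
          Tree.size]
        omega
      · intro hn hz
        repeat (first
          | exact allnil
          | refine allcons (by first | exact hn _ _ _ rfl | exact hz _ rfl | assumption) ?_)
  | node v r, node w s, ha, hb => by
      simp only [Tree.size] at ha hb
      have h1 := der_sw1 h hC hK p v w hp (by omega) (by omega)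
      rcases sw1_ft p v w with e | e
      · rw [e] at h1
        rw [show swT p (node v r) (node w s) = ff by rw [swT, if_pos e]]
        refine stp h hC (mSw 7 rfl) [(0, p), (1, v), (2, r), (3, node v r), (4, w), (5, s),
          (6, node w s)] ?_ ?_ rfl
        · simp only [List.forall_mem_cons, List.not_mem_nil, false_imp_iff, implies_true, and_true,
            Tree.size]
          omega
        · intro hn hz
          repeat (first
            | exact allnil
            | refine allcons (by first | exact hn _ _ _ rfl | exact hz _ rfl | assumption) ?_)
      · rw [e] at h1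
        have h2 := der_sw h hC hK p hp r s (by omega) (by omega)
        have hs := sz_ft (sw_ft p r s)
        rw [show swT p (node v r) (node w s) = swT p r s by
          rw [swT, if_neg (by rw [e]; simp)]]
        refine stp h hC (mSw 8 rfl) [(0, p), (1, v), (2, r), (3, node v r), (4, w), (5, s),
          (6, node w s), (7, tt), (10, swT p r s)] ?_ ?_ rfl
        · simp only [List.forall_mem_cons, List.not_mem_nil, false_imp_iff, implies_true, and_true,
            Tree.size]
          omega
        · intro hn hz
          repeat (first
            | exact allnil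
            | refine allcons (by first | exact hn _ _ _ rfl | exact hz _ rfl | assumption) ?_)

theorem nth_le : ∀ a i : Tree, (nthT a i).size ≤ a.size
  | nil, i => by rw [nthT]
  | node a r, nil => by
      rw [nthT]
      simp only [Tree.size]
      omega
  | node a nil, node _ _ => by
      rw [nthT]
      simp only [Tree.size]
      omega
  | node a (node p q), node _ i => by
      rw [nthT]
      have := nth_le (node p q) i
      simp only [Tree.size] at this ⊢
      omega

theorem der_nth (h : Ctx N ν M K) (hC : ∀ c ∈ clTree, c ∈ Cs) (hK : 1 ≤ K) : ∀ a i : Tree,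
    a.size ≤ K → i.size ≤ K → Der Cs N N.length (o3 iNth (ν a) (ν i) (ν (nthT a i)))
  | nil, i, ha, hb => by
      rw [show nthT nil i = nil by rw [nthT]]
      refine stp h hC (mSw 9 rfl) [(1, i)] ?_ ?_ rfl
      · simp only [List.forall_mem_cons, List.not_mem_nil, false_imp_iff, implies_true, and_true,
          Tree.size]
        omega
      · intro hn hz
        repeat (first
          | exact allnil
          | refine allcons (by first | exact hn _ _ _ rfl | exact hz _ rfl | assumption) ?_)
  | node a r, nil, ha, hb => by
      simp only [Tree.size] at ha
      rw [show nthT (node a r) nil = a by rw [nthT]]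
      refine stp h hC (mSw 10 rfl) [(0, a), (1, r), (2, node a r)] ?_ ?_ rfl
      · simp only [List.forall_mem_cons, List.not_mem_nil, false_imp_iff, implies_true, and_true,
          Tree.size]
        omega
      · intro hn hz
        repeat (first
          | exact allnil
          | refine allcons (by first | exact hn _ _ _ rfl | exact hz _ rfl | assumption) ?_)
  | node a nil, node b c, ha, hb => by
      simp only [Tree.size] at ha hb
      rw [show nthT (node a nil) (node b c) = a by rw [nthT]]
      refine stp h hC (mSw 11 rfl) [(0, a), (2, node a nil), (3, b), (4, c), (5, node b c)]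
        ?_ ?_ rfl
      · simp only [List.forall_mem_cons, List.not_mem_nil, false_imp_iff, implies_true, and_true,
          Tree.size]
        omega
      · intro hn hz
        repeat (first
          | exact allnil
          | refine allcons (by first | exact hn _ _ _ rfl | exact hz _ rfl | assumption) ?_)
  | node a (node p q), node b i, ha, hb => by
      have hs := nth_le (node p q) i
      simp only [Tree.size] at ha hb hs
      have h1 := der_nth h hC hK (node p q) i (by simp only [Tree.size]; omega) (by omega)
      rw [show nthT (node a (node p q)) (node b i) = nthT (node p q) i by rw [nthT]]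
      refine stp h hC (mSw 12 rfl) [(1, p), (2, q), (3, node p q), (0, a), (4, node a (node p q)),
        (5, b), (6, i), (7, node b i), (8, nthT (node p q) i)] ?_ ?_ rfl
      · simp only [List.forall_mem_cons, List.not_mem_nil, false_imp_iff, implies_true, and_true,
          Tree.size]
        omega
      · intro hn hz
        repeat (first
          | exact allnil
          | refine allcons (by first | exact hn _ _ _ rfl | exact hz _ rfl | assumption) ?_)

theorem opc0 {o : Tree} (h : opc o = 0) : o = nil := by
  cases o with
  | nil => rfl
  | node a r => rw [opc] at h; omega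

theorem opcS {o : Tree} {k : ℕ} (h : opc o = k + 1) : ∃ a r, o = node a r ∧ opc r = k := by
  cases o with
  | nil => rw [opc] at h; omega
  | node a r => exact ⟨a, r, rfl, by rw [opc] at h; omega⟩

theorem opcG {o : Tree} {k : ℕ} (h : k + 1 ≤ opc o) : ∃ a r, o = node a r ∧ k ≤ opc r := by
  cases o with
  | nil => rw [opc] at h; omega
  | node a r => exact ⟨a, r, rfl, by rw [opc] at h; omega⟩

theorem l0a (h : Ctx N ν M K) (hC : ∀ c ∈ clTree, c ∈ Cs)
    (π a b c d : Tree) (_hg : nil.size ≤ K)
    (hj : π.size + (node nil (node a (node b (node c d)))).size + 10 ≤ K)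
    (hr : (dflt).size ≤ K) :
    Der Cs N N.length (.op iLine (ν nil) (ν π) (ν (node nil (node a (node b (node c d)))))
      (ν (dflt))) := by
  simp only [Tree.size] at hj hr
  refine stp h hC (mLine 4 rfl) [(1, π), (2, a), (3, b), (4, c), (5, d), (6, node c d), (7, node b (node c d)),
    (8, node a (node b (node c d))), (10, node nil (node a (node b (node c d)))), (41, tt),
    (42, node nil tt), (43, node nil (node nil tt)), (44, dflt)]
    ?_ ?_ rfl
  · simp only [List.forall_mem_cons, List.not_mem_nil, false_imp_iff, implies_true, and_true,
      Tree.size]
    omega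
  · intro hn hz
    repeat (first
      | exact allnil
      | refine allcons (by first | exact hn _ _ _ rfl | exact hz _ rfl | assumption) ?_)

theorem l0b (h : Ctx N ν M K) (hC : ∀ c ∈ clTree, c ∈ Cs)
    (π a b c d x y : Tree) (hg : (node x y).size ≤ K)
    (hj : π.size + (node nil (node a (node b (node c d)))).size + 10 ≤ K)
    (hr : (nthT (node x y) a).size ≤ K)
    (h1 : Der Cs N N.length (o3 iNth (ν (node x y)) (ν a) (ν (nthT (node x y) a)))) :
    Der Cs N N.length (.op iLine (ν (node x y)) (ν π) (ν (node nil (node a (node b (node c d)))))
      (ν (nthT (node x y) a))) := by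
  simp only [Tree.size] at hg hj hr
  refine stp h hC (mLine 5 rfl) [(0, node x y), (1, π), (2, a), (3, b), (4, c), (5, d), (6, node c d),
    (7, node b (node c d)), (8, node a (node b (node c d))),
    (10, node nil (node a (node b (node c d)))), (16, x), (17, y), (18, nthT (node x y) a)]
    ?_ ?_ rfl
  · simp only [List.forall_mem_cons, List.not_mem_nil, false_imp_iff, implies_true, and_true,
      Tree.size]
    omega
  · intro hn hz
    repeat (first
      | exact allnil
      | refine allcons (by first | exact hn _ _ _ rfl | exact hz _ rfl | assumption) ?_)

theorem l1 (h : Ctx N ν M K) (hC : ∀ c ∈ clTree, c ∈ Cs)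
    (g π a b c d a1 : Tree) (hg : g.size ≤ K)
    (hj : π.size + (node (node a1 nil) (node a (node b (node c d)))).size + 10 ≤ K)
    (hr : (impT a (impT b a)).size ≤ K) :
    Der Cs N N.length (.op iLine (ν g) (ν π) (ν (node (node a1 nil) (node a (node b (node c d)))))
      (ν (impT a (impT b a)))) := by
  simp only [Tree.size] at hg hj hr
  refine stp h hC (mLine 6 rfl) [(0, g), (1, π), (2, a), (3, b), (4, c), (5, d), (6, node c d), (7, node b (node c d)),
    (8, node a (node b (node c d))), (9, node a1 nil),
    (10, node (node a1 nil) (node a (node b (node c d)))), (21, a1), (12, tt),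
    (13, node b a), (14, impT b a), (15, node a (impT b a)), (16, impT a (impT b a))]
    ?_ ?_ rfl
  · simp only [List.forall_mem_cons, List.not_mem_nil, false_imp_iff, implies_true, and_true,
      Tree.size]
    omega
  · intro hn hz
    repeat (first
      | exact allnil
      | refine allcons (by first | exact hn _ _ _ rfl | exact hz _ rfl | assumption) ?_)

theorem l2 (h : Ctx N ν M K) (hC : ∀ c ∈ clTree, c ∈ Cs)
    (g π a b c d a1 a2 : Tree) (hg : g.size ≤ K)
    (hj : π.size + (node (node a1 (node a2 nil)) (node a (node b (node c d)))).size + 10 ≤ K)
    (hr : (impT (impT a (impT b c)) (impT (impT a b) (impT a c))).size ≤ K) :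
    Der Cs N N.length (.op iLine (ν g) (ν π) (ν (node (node a1 (node a2 nil)) (node a (node b (node c d)))))
      (ν (impT (impT a (impT b c)) (impT (impT a b) (impT a c))))) := by
  simp only [Tree.size] at hg hj hr
  refine stp h hC (mLine 7 rfl) [(0, g), (1, π), (2, a), (3, b), (4, c), (5, d), (6, node c d), (7, node b (node c d)),
    (8, node a (node b (node c d))), (9, node a1 (node a2 nil)),
    (10, node (node a1 (node a2 nil)) (node a (node b (node c d)))), (21, a2),
    (22, node a2 nil), (23, a1), (12, tt), (13, node b c), (14, impT b c),
    (15, node a (impT b c)), (16, impT a (impT b c)), (17, node a b), (18, impT a b),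
    (19, node a c), (45, impT a c), (46, node (impT a b) (impT a c)),
    (47, impT (impT a b) (impT a c)),
    (48, node (impT a (impT b c)) (impT (impT a b) (impT a c))),
    (49, impT (impT a (impT b c)) (impT (impT a b) (impT a c)))]
    ?_ ?_ rfl
  · simp only [List.forall_mem_cons, List.not_mem_nil, false_imp_iff, implies_true, and_true,
      Tree.size]
    omega
  · intro hn hz
    repeat (first
      | exact allnil
      | refine allcons (by first | exact hn _ _ _ rfl | exact hz _ rfl | assumption) ?_)

theorem l3 (h : Ctx N ν M K) (hC : ∀ c ∈ clTree, c ∈ Cs)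
    (g π a b c d a1 a2 a3 : Tree) (hg : g.size ≤ K)
    (hj : π.size + (node (node a1 (node a2 (node a3 nil))) (node a (node b (node c d)))).size + 10 ≤ K)
    (hr : (impT (negT (negT a)) a).size ≤ K) :
    Der Cs N N.length (.op iLine (ν g) (ν π) (ν (node (node a1 (node a2 (node a3 nil))) (node a (node b (node c d)))))
      (ν (impT (negT (negT a)) a))) := by
  simp only [Tree.size] at hg hj hr
  refine stp h hC (mLine 8 rfl) [(0, g), (1, π), (2, a), (3, b), (4, c), (5, d), (6, node c d), (7, node b (node c d)),
    (8, node a (node b (node c d))), (9, node a1 (node a2 (node a3 nil))),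
    (10, node (node a1 (node a2 (node a3 nil))) (node a (node b (node c d)))), (21, a3),
    (22, node a3 nil), (23, a2), (24, node a2 (node a3 nil)), (25, a1), (12, tt),
    (13, node a nil), (14, negT a), (15, node (negT a) nil), (16, negT (negT a)),
    (17, node (negT (negT a)) a), (18, impT (negT (negT a)) a)]
    ?_ ?_ rfl
  · simp only [List.forall_mem_cons, List.not_mem_nil, false_imp_iff, implies_true, and_true,
      Tree.size]
    omega
  · intro hn hz
    repeat (first
      | exact allnil
      | refine allcons (by first | exact hn _ _ _ rfl | exact hz _ rfl | assumption) ?_)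

theorem l4a (h : Ctx N ν M K) (hC : ∀ c ∈ clTree, c ∈ Cs)
    (g π a b c d a1 a2 a3 a4 : Tree) (hg : g.size ≤ K)
    (hj : π.size + (node (node a1 (node a2 (node a3 (node a4 nil)))) (node a (node b (node c d)))).size + 10 ≤ K)
    (hr : (dflt).size ≤ K)
    (h1 : Der Cs N N.length (.op iFfor (ν b) (ν a) (ν c) (ν nil))) :
    Der Cs N N.length (.op iLine (ν g) (ν π) (ν (node (node a1 (node a2 (node a3 (node a4 nil)))) (node a (node b (node c d)))))
      (ν (dflt))) := by
  simp only [Tree.size] at hg hj hr
  refine stp h hC (mLine 9 rfl) [(0, g), (1, π), (2, a), (3, b), (4, c), (5, d), (6, node c d), (7, node b (node c d)),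
    (8, node a (node b (node c d))), (9, node a1 (node a2 (node a3 (node a4 nil)))),
    (10, node (node a1 (node a2 (node a3 (node a4 nil)))) (node a (node b (node c d)))),
    (21, a4), (22, node a4 nil), (23, a3), (24, node a3 (node a4 nil)), (25, a2),
    (26, node a2 (node a3 (node a4 nil))), (27, a1), (41, tt), (42, node nil tt),
    (43, node nil (node nil tt)), (44, dflt)]
    ?_ ?_ rfl
  · simp only [List.forall_mem_cons, List.not_mem_nil, false_imp_iff, implies_true, and_true,
      Tree.size]
    omega
  · intro hn hz
    repeat (first
      | exact allnil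
      | refine allcons (by first | exact hn _ _ _ rfl | exact hz _ rfl | assumption) ?_)

theorem l4b (h : Ctx N ν M K) (hC : ∀ c ∈ clTree, c ∈ Cs)
    (g π a b c d a1 a2 a3 a4 : Tree) (hg : g.size ≤ K)
    (hj : π.size + (node (node a1 (node a2 (node a3 (node a4 nil)))) (node a (node b (node c d)))).size + 10 ≤ K)
    (hr : (impT (allT a c) (subT a b c)).size ≤ K)
    (h1 : Der Cs N N.length (.op iFfor (ν b) (ν a) (ν c) (ν tt)))
    (h2 : Der Cs N N.length (.op iSub (ν a) (ν b) (ν c) (ν (subT a b c)))) :
    Der Cs N N.length (.op iLine (ν g) (ν π) (ν (node (node a1 (node a2 (node a3 (node a4 nil)))) (node a (node b (node c d)))))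
      (ν (impT (allT a c) (subT a b c)))) := by
  simp only [Tree.size] at hg hj hr
  refine stp h hC (mLine 10 rfl) [(0, g), (1, π), (2, a), (3, b), (4, c), (5, d), (6, node c d), (7, node b (node c d)),
    (8, node a (node b (node c d))), (9, node a1 (node a2 (node a3 (node a4 nil)))),
    (10, node (node a1 (node a2 (node a3 (node a4 nil)))) (node a (node b (node c d)))),
    (21, a4), (22, node a4 nil), (23, a3), (24, node a3 (node a4 nil)), (25, a2),
    (26, node a2 (node a3 (node a4 nil))), (27, a1), (12, tt), (13, tt), (16, subT a b c),
    (17, node tt nil), (18, node a c), (19, allT a c), (45, node (allT a c) (subT a b c)),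
    (46, impT (allT a c) (subT a b c))]
    ?_ ?_ rfl
  · simp only [List.forall_mem_cons, List.not_mem_nil, false_imp_iff, implies_true, and_true,
      Tree.size]
    omega
  · intro hn hz
    repeat (first
      | exact allnil
      | refine allcons (by first | exact hn _ _ _ rfl | exact hz _ rfl | assumption) ?_)

theorem l5a (h : Ctx N ν M K) (hC : ∀ c ∈ clTree, c ∈ Cs)
    (g π a b c d a1 a2 a3 a4 a5 : Tree) (hg : g.size ≤ K)
    (hj : π.size + (node (node a1 (node a2 (node a3 (node a4 (node a5 nil))))) (node a (node b (node c d)))).size + 10 ≤ K)
    (hr : (impT (allT a (impT b c)) (impT b (allT a c))).size ≤ K)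
    (h1 : Der Cs N N.length (o3 iFree (ν a) (ν b) (ν nil))) :
    Der Cs N N.length (.op iLine (ν g) (ν π) (ν (node (node a1 (node a2 (node a3 (node a4 (node a5 nil))))) (node a (node b (node c d)))))
      (ν (impT (allT a (impT b c)) (impT b (allT a c))))) := by
  simp only [Tree.size] at hg hj hr
  refine stp h hC (mLine 11 rfl) [(0, g), (1, π), (2, a), (3, b), (4, c), (5, d), (6, node c d), (7, node b (node c d)),
    (8, node a (node b (node c d))),
    (9, node a1 (node a2 (node a3 (node a4 (node a5 nil))))),
    (10, node (node a1 (node a2 (node a3 (node a4 (node a5 nil))))) (node a (node b (node c d)))),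
    (21, a5), (22, node a5 nil), (23, a4), (24, node a4 (node a5 nil)), (25, a3),
    (26, node a3 (node a4 (node a5 nil))), (27, a2),
    (28, node a2 (node a3 (node a4 (node a5 nil)))), (29, a1), (12, tt), (14, node b c),
    (15, impT b c), (16, node a (impT b c)), (17, node tt nil), (18, allT a (impT b c)),
    (19, node a c), (45, allT a c), (46, node b (allT a c)), (47, impT b (allT a c)),
    (48, node (allT a (impT b c)) (impT b (allT a c))),
    (49, impT (allT a (impT b c)) (impT b (allT a c)))]
    ?_ ?_ rfl
  · simp only [List.forall_mem_cons, List.not_mem_nil, false_imp_iff, implies_true, and_true,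
      Tree.size]
    omega
  · intro hn hz
    repeat (first
      | exact allnil
      | refine allcons (by first | exact hn _ _ _ rfl | exact hz _ rfl | assumption) ?_)

theorem l5b (h : Ctx N ν M K) (hC : ∀ c ∈ clTree, c ∈ Cs)
    (g π a b c d a1 a2 a3 a4 a5 : Tree) (hg : g.size ≤ K)
    (hj : π.size + (node (node a1 (node a2 (node a3 (node a4 (node a5 nil))))) (node a (node b (node c d)))).size + 10 ≤ K)
    (hr : (dflt).size ≤ K)
    (h1 : Der Cs N N.length (o3 iFree (ν a) (ν b) (ν tt))) :
    Der Cs N N.length (.op iLine (ν g) (ν π) (ν (node (node a1 (node a2 (node a3 (node a4 (node a5 nil))))) (node a (node b (node c d)))))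
      (ν (dflt))) := by
  simp only [Tree.size] at hg hj hr
  refine stp h hC (mLine 12 rfl) [(0, g), (1, π), (2, a), (3, b), (4, c), (5, d), (6, node c d), (7, node b (node c d)),
    (8, node a (node b (node c d))),
    (9, node a1 (node a2 (node a3 (node a4 (node a5 nil))))),
    (10, node (node a1 (node a2 (node a3 (node a4 (node a5 nil))))) (node a (node b (node c d)))),
    (21, a5), (22, node a5 nil), (23, a4), (24, node a4 (node a5 nil)), (25, a3),
    (26, node a3 (node a4 (node a5 nil))), (27, a2),
    (28, node a2 (node a3 (node a4 (node a5 nil)))), (29, a1), (16, tt), (41, tt),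
    (42, node nil tt), (43, node nil (node nil tt)), (44, dflt)]
    ?_ ?_ rfl
  · simp only [List.forall_mem_cons, List.not_mem_nil, false_imp_iff, implies_true, and_true,
      Tree.size]
    omega
  · intro hn hz
    repeat (first
      | exact allnil
      | refine allcons (by first | exact hn _ _ _ rfl | exact hz _ rfl | assumption) ?_)

theorem l6 (h : Ctx N ν M K) (hC : ∀ c ∈ clTree, c ∈ Cs)
    (g π a b c d a1 a2 a3 a4 a5 a6 : Tree) (hg : g.size ≤ K)
    (hj : π.size + (node (node a1 (node a2 (node a3 (node a4 (node a5 (node a6 nil)))))) (node a (node b (node c d)))).size + 10 ≤ K)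
    (hr : (eqA a a).size ≤ K) :
    Der Cs N N.length (.op iLine (ν g) (ν π) (ν (node (node a1 (node a2 (node a3 (node a4 (node a5 (node a6 nil)))))) (node a (node b (node c d)))))
      (ν (eqA a a))) := by
  simp only [Tree.size] at hg hj hr
  refine stp h hC (mLine 13 rfl) [(0, g), (1, π), (2, a), (3, b), (4, c), (5, d), (6, node c d), (7, node b (node c d)),
    (8, node a (node b (node c d))),
    (9, node a1 (node a2 (node a3 (node a4 (node a5 (node a6 nil)))))),
    (10, node (node a1 (node a2 (node a3 (node a4 (node a5 (node a6 nil)))))) (node a (node b (node c d)))),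
    (21, a6), (22, node a6 nil), (23, a5), (24, node a5 (node a6 nil)), (25, a4),
    (26, node a4 (node a5 (node a6 nil))), (27, a3),
    (28, node a3 (node a4 (node a5 (node a6 nil)))), (29, a2),
    (30, node a2 (node a3 (node a4 (node a5 (node a6 nil))))), (31, a1), (12, node a nil),
    (13, node a (node a nil)), (14, node nil (node a (node a nil))), (15, eqA a a)]
    ?_ ?_ rfl
  · simp only [List.forall_mem_cons, List.not_mem_nil, false_imp_iff, implies_true, and_true,
      Tree.size]
    omega
  · intro hn hz
    repeat (first
      | exact allnil
      | refine allcons (by first | exact hn _ _ _ rfl | exact hz _ rfl | assumption) ?_)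

theorem l7a (h : Ctx N ν M K) (hC : ∀ c ∈ clTree, c ∈ Cs)
    (g π a b c a1 a2 a3 a4 a5 a6 a7 : Tree) (hg : g.size ≤ K)
    (hj : π.size + (node (node a1 (node a2 (node a3 (node a4 (node a5 (node a6 (node a7 nil))))))) (node a (node b (node c nil)))).size + 10 ≤ K)
    (hr : (dflt).size ≤ K) :
    Der Cs N N.length (.op iLine (ν g) (ν π) (ν (node (node a1 (node a2 (node a3 (node a4 (node a5 (node a6 (node a7 nil))))))) (node a (node b (node c nil)))))
      (ν (dflt))) := by
  simp only [Tree.size] at hg hj hr
  refine stp h hC (mLine 14 rfl) [(0, g), (1, π), (2, a), (3, b), (4, c), (6, node c nil), (7, node b (node c nil)),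
    (8, node a (node b (node c nil))),
    (9, node a1 (node a2 (node a3 (node a4 (node a5 (node a6 (node a7 nil))))))),
    (10, node (node a1 (node a2 (node a3 (node a4 (node a5 (node a6 (node a7 nil))))))) (node a (node b (node c nil)))),
    (21, a7), (22, node a7 nil), (23, a6), (24, node a6 (node a7 nil)), (25, a5),
    (26, node a5 (node a6 (node a7 nil))), (27, a4),
    (28, node a4 (node a5 (node a6 (node a7 nil)))), (29, a3),
    (30, node a3 (node a4 (node a5 (node a6 (node a7 nil))))), (31, a2),
    (32, node a2 (node a3 (node a4 (node a5 (node a6 (node a7 nil)))))), (33, a1),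
    (41, tt), (42, node nil tt), (43, node nil (node nil tt)), (44, dflt)]
    ?_ ?_ rfl
  · simp only [List.forall_mem_cons, List.not_mem_nil, false_imp_iff, implies_true, and_true,
      Tree.size]
    omega
  · intro hn hz
    repeat (first
      | exact allnil
      | refine allcons (by first | exact hn _ _ _ rfl | exact hz _ rfl | assumption) ?_)

theorem l7b (h : Ctx N ν M K) (hC : ∀ c ∈ clTree, c ∈ Cs)
    (g π a b c y a1 a2 a3 a4 a5 a6 a7 : Tree) (hg : g.size ≤ K)
    (hj : π.size + (node (node a1 (node a2 (node a3 (node a4 (node a5 (node a6 (node a7 nil))))))) (node a (node b (node c (node nil y))))).size + 10 ≤ K)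
    (hr : (dflt).size ≤ K) :
    Der Cs N N.length (.op iLine (ν g) (ν π) (ν (node (node a1 (node a2 (node a3 (node a4 (node a5 (node a6 (node a7 nil))))))) (node a (node b (node c (node nil y))))))
      (ν (dflt))) := by
  simp only [Tree.size] at hg hj hr
  refine stp h hC (mLine 15 rfl) [(0, g), (1, π), (2, a), (3, b), (4, c), (5, node nil y), (6, node c (node nil y)),
    (7, node b (node c (node nil y))), (8, node a (node b (node c (node nil y)))),
    (9, node a1 (node a2 (node a3 (node a4 (node a5 (node a6 (node a7 nil))))))),
    (10, node (node a1 (node a2 (node a3 (node a4 (node a5 (node a6 (node a7 nil))))))) (node a (node b (node c (node nil y))))),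
    (21, a7), (22, node a7 nil), (23, a6), (24, node a6 (node a7 nil)), (25, a5),
    (26, node a5 (node a6 (node a7 nil))), (27, a4),
    (28, node a4 (node a5 (node a6 (node a7 nil)))), (29, a3),
    (30, node a3 (node a4 (node a5 (node a6 (node a7 nil))))), (31, a2),
    (32, node a2 (node a3 (node a4 (node a5 (node a6 (node a7 nil)))))), (33, a1), (17, y),
    (41, tt), (42, node nil tt), (43, node nil (node nil tt)), (44, dflt)]
    ?_ ?_ rfl
  · simp only [List.forall_mem_cons, List.not_mem_nil, false_imp_iff, implies_true, and_true,
      Tree.size]
    omega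
  · intro hn hz
    repeat (first
      | exact allnil
      | refine allcons (by first | exact hn _ _ _ rfl | exact hz _ rfl | assumption) ?_)

theorem l7c (h : Ctx N ν M K) (hC : ∀ c ∈ clTree, c ∈ Cs)
    (g π a b c v vs ws a1 a2 a3 a4 a5 a6 a7 : Tree) (hg : g.size ≤ K)
    (hj : π.size + (node (node a1 (node a2 (node a3 (node a4 (node a5 (node a6 (node a7 nil))))))) (node a (node b (node c (node (node v vs) ws))))).size + 10 ≤ K)
    (hr : (dflt).size ≤ K)
    (h1 : Der Cs N N.length (.op iSw (ν (node a b)) (ν (node v vs)) (ν ws) (ν nil))) :
    Der Cs N N.length (.op iLine (ν g) (ν π) (ν (node (node a1 (node a2 (node a3 (node a4 (node a5 (node a6 (node a7 nil))))))) (node a (node b (node c (node (node v vs) ws))))))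
      (ν (dflt))) := by
  simp only [Tree.size] at hg hj hr
  refine stp h hC (mLine 16 rfl) [(0, g), (1, π), (2, a), (3, b), (4, c), (5, node (node v vs) ws),
    (6, node c (node (node v vs) ws)), (7, node b (node c (node (node v vs) ws))),
    (8, node a (node b (node c (node (node v vs) ws)))),
    (9, node a1 (node a2 (node a3 (node a4 (node a5 (node a6 (node a7 nil))))))),
    (10, node (node a1 (node a2 (node a3 (node a4 (node a5 (node a6 (node a7 nil))))))) (node a (node b (node c (node (node v vs) ws))))),
    (21, a7), (22, node a7 nil), (23, a6), (24, node a6 (node a7 nil)), (25, a5),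
    (26, node a5 (node a6 (node a7 nil))), (27, a4),
    (28, node a4 (node a5 (node a6 (node a7 nil)))), (29, a3),
    (30, node a3 (node a4 (node a5 (node a6 (node a7 nil))))), (31, a2),
    (32, node a2 (node a3 (node a4 (node a5 (node a6 (node a7 nil)))))), (33, a1), (16, v),
    (17, vs), (18, node v vs), (19, ws), (45, node a b), (41, tt), (42, node nil tt),
    (43, node nil (node nil tt)), (44, dflt)]
    ?_ ?_ rfl
  · simp only [List.forall_mem_cons, List.not_mem_nil, false_imp_iff, implies_true, and_true,
      Tree.size]
    omega
  · intro hn hz
    repeat (first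
      | exact allnil
      | refine allcons (by first | exact hn _ _ _ rfl | exact hz _ rfl | assumption) ?_)

theorem l7d (h : Ctx N ν M K) (hC : ∀ c ∈ clTree, c ∈ Cs)
    (g π a b c v vs ws a1 a2 a3 a4 a5 a6 a7 : Tree) (hg : g.size ≤ K)
    (hj : π.size + (node (node a1 (node a2 (node a3 (node a4 (node a5 (node a6 (node a7 nil))))))) (node a (node b (node c (node (node v vs) ws))))).size + 10 ≤ K)
    (hr : (impT (eqA a b) (impT (node nil (node c (node v vs))) (node nil (node c ws)))).size ≤ K)
    (h1 : Der Cs N N.length (.op iSw (ν (node a b)) (ν (node v vs)) (ν ws) (ν tt))) :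
    Der Cs N N.length (.op iLine (ν g) (ν π) (ν (node (node a1 (node a2 (node a3 (node a4 (node a5 (node a6 (node a7 nil))))))) (node a (node b (node c (node (node v vs) ws))))))
      (ν (impT (eqA a b) (impT (node nil (node c (node v vs))) (node nil (node c ws)))))) := by
  simp only [Tree.size] at hg hj hr
  refine stp h hC (mLine 17 rfl) [(0, g), (1, π), (2, a), (3, b), (4, c), (5, node (node v vs) ws),
    (6, node c (node (node v vs) ws)), (7, node b (node c (node (node v vs) ws))),
    (8, node a (node b (node c (node (node v vs) ws)))),
    (9, node a1 (node a2 (node a3 (node a4 (node a5 (node a6 (node a7 nil))))))),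
    (10, node (node a1 (node a2 (node a3 (node a4 (node a5 (node a6 (node a7 nil))))))) (node a (node b (node c (node (node v vs) ws))))),
    (21, a7), (22, node a7 nil), (23, a6), (24, node a6 (node a7 nil)), (25, a5),
    (26, node a5 (node a6 (node a7 nil))), (27, a4),
    (28, node a4 (node a5 (node a6 (node a7 nil)))), (29, a3),
    (30, node a3 (node a4 (node a5 (node a6 (node a7 nil))))), (31, a2),
    (32, node a2 (node a3 (node a4 (node a5 (node a6 (node a7 nil)))))), (33, a1), (16, v),
    (17, vs), (18, node v vs), (19, ws), (45, node a b), (46, tt), (12, tt),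
    (13, node b nil), (14, node a (node b nil)), (15, node nil (node a (node b nil))),
    (49, eqA a b), (50, node c (node v vs)), (51, node nil (node c (node v vs))),
    (52, node c ws), (53, node nil (node c ws)),
    (54, node (node nil (node c (node v vs))) (node nil (node c ws))),
    (55, impT (node nil (node c (node v vs))) (node nil (node c ws))),
    (56, node (eqA a b) (impT (node nil (node c (node v vs))) (node nil (node c ws)))),
    (57, impT (eqA a b) (impT (node nil (node c (node v vs))) (node nil (node c ws))))]
    ?_ ?_ rfl
  · simp only [List.forall_mem_cons, List.not_mem_nil, false_imp_iff, implies_true, and_true,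
      Tree.size]
    omega
  · intro hn hz
    repeat (first
      | exact allnil
      | refine allcons (by first | exact hn _ _ _ rfl | exact hz _ rfl | assumption) ?_)

theorem l8a (h : Ctx N ν M K) (hC : ∀ c ∈ clTree, c ∈ Cs)
    (g π a b c d x y a1 a2 a3 a4 a5 a6 a7 a8 : Tree) (hg : g.size ≤ K)
    (hj : π.size + (node (node a1 (node a2 (node a3 (node a4 (node a5 (node a6 (node a7 (node a8 nil)))))))) (node a (node b (node c d)))).size + 10 ≤ K)
    (hr : (dflt).size ≤ K)
    (hs1 : x.size ≤ π.size)
    (hs2 : y.size ≤ π.size)
    (h1 : Der Cs N N.length (o3 iNth (ν π) (ν a) (ν x)))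
    (h2 : Der Cs N N.length (o3 iNth (ν π) (ν b) (ν y)))
    (h3 : Der Cs N N.length (o3 iEq (ν x) (ν (impT y c)) (ν nil))) :
    Der Cs N N.length (.op iLine (ν g) (ν π) (ν (node (node a1 (node a2 (node a3 (node a4 (node a5 (node a6 (node a7 (node a8 nil)))))))) (node a (node b (node c d)))))
      (ν (dflt))) := by
  simp only [Tree.size] at hg hj hr
  refine stp h hC (mLine 18 rfl) [(0, g), (1, π), (2, a), (3, b), (4, c), (5, d), (6, node c d), (7, node b (node c d)),
    (8, node a (node b (node c d))),
    (9, node a1 (node a2 (node a3 (node a4 (node a5 (node a6 (node a7 (node a8 nil)))))))),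
    (10, node (node a1 (node a2 (node a3 (node a4 (node a5 (node a6 (node a7 (node a8 nil)))))))) (node a (node b (node c d)))),
    (21, a8), (22, node a8 nil), (23, a7), (24, node a7 (node a8 nil)), (25, a6),
    (26, node a6 (node a7 (node a8 nil))), (27, a5),
    (28, node a5 (node a6 (node a7 (node a8 nil)))), (29, a4),
    (30, node a4 (node a5 (node a6 (node a7 (node a8 nil))))), (31, a3),
    (32, node a3 (node a4 (node a5 (node a6 (node a7 (node a8 nil)))))), (33, a2),
    (34, node a2 (node a3 (node a4 (node a5 (node a6 (node a7 (node a8 nil))))))),
    (35, a1), (13, x), (14, y), (12, tt), (15, node y c), (16, impT y c), (41, tt),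
    (42, node nil tt), (43, node nil (node nil tt)), (44, dflt)]
    ?_ ?_ rfl
  · simp only [List.forall_mem_cons, List.not_mem_nil, false_imp_iff, implies_true, and_true,
      Tree.size]
    omega
  · intro hn hz
    repeat (first
      | exact allnil
      | refine allcons (by first | exact hn _ _ _ rfl | exact hz _ rfl | assumption) ?_)

theorem l8b (h : Ctx N ν M K) (hC : ∀ c ∈ clTree, c ∈ Cs)
    (g π a b c d x y a1 a2 a3 a4 a5 a6 a7 a8 : Tree) (hg : g.size ≤ K)
    (hj : π.size + (node (node a1 (node a2 (node a3 (node a4 (node a5 (node a6 (node a7 (node a8 nil)))))))) (node a (node b (node c d)))).size + 10 ≤ K)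
    (hr : (c).size ≤ K)
    (hs1 : x.size ≤ π.size)
    (hs2 : y.size ≤ π.size)
    (h1 : Der Cs N N.length (o3 iNth (ν π) (ν a) (ν x)))
    (h2 : Der Cs N N.length (o3 iNth (ν π) (ν b) (ν y)))
    (h3 : Der Cs N N.length (o3 iEq (ν x) (ν (impT y c)) (ν tt))) :
    Der Cs N N.length (.op iLine (ν g) (ν π) (ν (node (node a1 (node a2 (node a3 (node a4 (node a5 (node a6 (node a7 (node a8 nil)))))))) (node a (node b (node c d)))))
      (ν (c))) := by
  simp only [Tree.size] at hg hj hr
  refine stp h hC (mLine 19 rfl) [(0, g), (1, π), (2, a), (3, b), (4, c), (5, d), (6, node c d), (7, node b (node c d)),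
    (8, node a (node b (node c d))),
    (9, node a1 (node a2 (node a3 (node a4 (node a5 (node a6 (node a7 (node a8 nil)))))))),
    (10, node (node a1 (node a2 (node a3 (node a4 (node a5 (node a6 (node a7 (node a8 nil)))))))) (node a (node b (node c d)))),
    (21, a8), (22, node a8 nil), (23, a7), (24, node a7 (node a8 nil)), (25, a6),
    (26, node a6 (node a7 (node a8 nil))), (27, a5),
    (28, node a5 (node a6 (node a7 (node a8 nil)))), (29, a4),
    (30, node a4 (node a5 (node a6 (node a7 (node a8 nil))))), (31, a3),
    (32, node a3 (node a4 (node a5 (node a6 (node a7 (node a8 nil)))))), (33, a2),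
    (34, node a2 (node a3 (node a4 (node a5 (node a6 (node a7 (node a8 nil))))))),
    (35, a1), (13, x), (14, y), (12, tt), (15, node y c), (16, impT y c), (17, tt)]
    ?_ ?_ rfl
  · simp only [List.forall_mem_cons, List.not_mem_nil, false_imp_iff, implies_true, and_true,
      Tree.size]
    omega
  · intro hn hz
    repeat (first
      | exact allnil
      | refine allcons (by first | exact hn _ _ _ rfl | exact hz _ rfl | assumption) ?_)

theorem l9 (h : Ctx N ν M K) (hC : ∀ c ∈ clTree, c ∈ Cs)
    (g π a b c d y a1 a2 a3 a4 a5 a6 a7 a8 a9 r : Tree) (hg : g.size ≤ K)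
    (hj : π.size + (node (node a1 (node a2 (node a3 (node a4 (node a5 (node a6 (node a7 (node a8 (node a9 r))))))))) (node a (node b (node c d)))).size + 10 ≤ K)
    (hr : (allT a y).size ≤ K)
    (hs2 : y.size ≤ π.size)
    (h2 : Der Cs N N.length (o3 iNth (ν π) (ν b) (ν y))) :
    Der Cs N N.length (.op iLine (ν g) (ν π) (ν (node (node a1 (node a2 (node a3 (node a4 (node a5 (node a6 (node a7 (node a8 (node a9 r))))))))) (node a (node b (node c d)))))
      (ν (allT a y))) := by
  simp only [Tree.size] at hg hj hr
  refine stp h hC (mLine 20 rfl) [(0, g), (1, π), (2, a), (3, b), (4, c), (5, d), (6, node c d), (7, node b (node c d)),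
    (8, node a (node b (node c d))),
    (9, node a1 (node a2 (node a3 (node a4 (node a5 (node a6 (node a7 (node a8 (node a9 r))))))))),
    (10, node (node a1 (node a2 (node a3 (node a4 (node a5 (node a6 (node a7 (node a8 (node a9 r))))))))) (node a (node b (node c d)))),
    (20, r), (21, a9), (22, node a9 r), (23, a8), (24, node a8 (node a9 r)), (25, a7),
    (26, node a7 (node a8 (node a9 r))), (27, a6),
    (28, node a6 (node a7 (node a8 (node a9 r)))), (29, a5),
    (30, node a5 (node a6 (node a7 (node a8 (node a9 r))))), (31, a4),
    (32, node a4 (node a5 (node a6 (node a7 (node a8 (node a9 r)))))), (33, a3),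
    (34, node a3 (node a4 (node a5 (node a6 (node a7 (node a8 (node a9 r))))))), (35, a2),
    (36, node a2 (node a3 (node a4 (node a5 (node a6 (node a7 (node a8 (node a9 r)))))))),
    (37, a1), (13, y), (12, tt), (14, node tt nil), (15, node a y), (16, allT a y)]
    ?_ ?_ rfl
  · simp only [List.forall_mem_cons, List.not_mem_nil, false_imp_iff, implies_true, and_true,
      Tree.size]
    omega
  · intro hn hz
    repeat (first
      | exact allnil
      | refine allcons (by first | exact hn _ _ _ rfl | exact hz _ rfl | assumption) ?_)

theorem lineT_eq (g π o a b c d : Tree) :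
    lineT g π (node o (node a (node b (node c d)))) = lineO g π (opc o) a b c d := rfl

theorem der_line (h : Ctx N ν M K) (hC : ∀ c ∈ clTree, c ∈ Cs) (g π : Tree) (hg : g.size ≤ K) :
    ∀ j : Tree, π.size + j.size + 10 ≤ K → (lineT g π j).size ≤ K →
    Der Cs N N.length (.op iLine (ν g) (ν π) (ν j) (ν (lineT g π j)))
  | nil, hj, hr => by
      rw [show lineT g π nil = dflt from rfl] at hr ⊢
      simp only [Tree.size] at hj hr
      refine stp h hC (mLine 0 rfl) [(0, g), (1, π), (41, tt), (42, node nil tt),
        (43, node nil (node nil tt)), (44, dflt)] ?_ ?_ rfl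
      · simp only [List.forall_mem_cons, List.not_mem_nil, false_imp_iff, implies_true, and_true,
          Tree.size]
        omega
      · intro hn hz
        repeat (first
          | exact allnil
          | refine allcons (by first | exact hn _ _ _ rfl | exact hz _ rfl | assumption) ?_)
  | node o nil, hj, hr => by
      rw [show lineT g π (node o nil) = dflt from rfl] at hr ⊢
      simp only [Tree.size] at hj hr
      refine stp h hC (mLine 1 rfl) [(0, g), (1, π), (9, o), (10, node o nil),
        (41, tt), (42, node nil tt), (43, node nil (node nil tt)), (44, dflt)] ?_ ?_ rfl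
      · simp only [List.forall_mem_cons, List.not_mem_nil, false_imp_iff, implies_true, and_true,
          Tree.size]
        omega
      · intro hn hz
        repeat (first
          | exact allnil
          | refine allcons (by first | exact hn _ _ _ rfl | exact hz _ rfl | assumption) ?_)
  | node o (node a nil), hj, hr => by
      rw [show lineT g π (node o (node a nil)) = dflt from rfl] at hr ⊢
      simp only [Tree.size] at hj hr
      refine stp h hC (mLine 2 rfl) [(0, g), (1, π), (9, o), (2, a), (8, node a nil),
        (10, node o (node a nil)),
        (41, tt), (42, node nil tt), (43, node nil (node nil tt)), (44, dflt)] ?_ ?_ rfl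
      · simp only [List.forall_mem_cons, List.not_mem_nil, false_imp_iff, implies_true, and_true,
          Tree.size]
        omega
      · intro hn hz
        repeat (first
          | exact allnil
          | refine allcons (by first | exact hn _ _ _ rfl | exact hz _ rfl | assumption) ?_)
  | node o (node a (node b nil)), hj, hr => by
      rw [show lineT g π (node o (node a (node b nil))) = dflt from rfl] at hr ⊢
      simp only [Tree.size] at hj hr
      refine stp h hC (mLine 3 rfl) [(0, g), (1, π), (9, o), (2, a), (3, b), (7, node b nil),
        (8, node a (node b nil)), (10, node o (node a (node b nil))),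
        (41, tt), (42, node nil tt), (43, node nil (node nil tt)), (44, dflt)] ?_ ?_ rfl
      · simp only [List.forall_mem_cons, List.not_mem_nil, false_imp_iff, implies_true, and_true,
          Tree.size]
        omega
      · intro hn hz
        repeat (first
          | exact allnil
          | refine allcons (by first | exact hn _ _ _ rfl | exact hz _ rfl | assumption) ?_)
  | node o (node a (node b (node c d))), hj, hr => by
      have hj' := hj
      simp only [Tree.size] at hj'
      rw [lineT_eq] at hr ⊢
      rcases Nat.lt_or_ge (opc o) 9 with ho | ho
      · obtain ⟨k, hk⟩ : ∃ k, opc o = k := ⟨_, rfl⟩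
        rw [hk] at ho hr ⊢
        interval_cases k
        · -- 0
          obtain rfl := opc0 hk
          cases g with
          | nil =>
            rw [show lineO nil π 0 a b c d = dflt from rfl] at hr ⊢
            exact l0a h hC π a b c d hg hj hr
          | node x y =>
            have e : lineO (node x y) π 0 a b c d = nthT (node x y) a := by
              rw [lineO, if_neg (by simp)]
            rw [e] at hr ⊢
            exact l0b h hC π a b c d x y hg hj hr
              (der_nth h hC (by omega) _ _ hg (by omega))
        · -- 1
          obtain ⟨a1, r1, rfl, hk1⟩ := opcS hk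
          obtain rfl := opc0 hk1
          exact l1 h hC g π a b c d a1 hg hj hr
        · -- 2
          obtain ⟨a1, r1, rfl, hk1⟩ := opcS hk
          obtain ⟨a2, r2, rfl, hk2⟩ := opcS hk1
          obtain rfl := opc0 hk2
          exact l2 h hC g π a b c d a1 a2 hg hj hr
        · -- 3
          obtain ⟨a1, r1, rfl, hk1⟩ := opcS hk
          obtain ⟨a2, r2, rfl, hk2⟩ := opcS hk1
          obtain ⟨a3, r3, rfl, hk3⟩ := opcS hk2
          obtain rfl := opc0 hk3
          exact l3 h hC g π a b c d a1 a2 a3 hg hj hr
        · -- 4
          obtain ⟨a1, r1, rfl, hk1⟩ := opcS hk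
          obtain ⟨a2, r2, rfl, hk2⟩ := opcS hk1
          obtain ⟨a3, r3, rfl, hk3⟩ := opcS hk2
          obtain ⟨a4, r4, rfl, hk4⟩ := opcS hk3
          obtain rfl := opc0 hk4
          have h1 := der_ffor h hC (by omega) b a (by omega) (by omega) c (by omega)
          rcases ffor_ft b a c with e | e
          · rw [e] at h1
            have e' : lineO g π 4 a b c d = dflt := by rw [lineO, if_pos e]
            rw [e'] at hr ⊢
            exact l4a h hC g π a b c d a1 a2 a3 a4 hg hj hr h1
          · rw [e] at h1
            have e' : lineO g π 4 a b c d = impT (allT a c) (subT a b c) := by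
              rw [lineO, if_neg (by rw [e]; simp)]
            rw [e'] at hr ⊢
            have hr' := hr
            simp only [Tree.size] at hr'
            exact l4b h hC g π a b c d a1 a2 a3 a4 hg hj hr h1
              (der_sub h hC (by omega) a b (by omega) (by omega) c (by omega) (by omega))
        · -- 5
          obtain ⟨a1, r1, rfl, hk1⟩ := opcS hk
          obtain ⟨a2, r2, rfl, hk2⟩ := opcS hk1
          obtain ⟨a3, r3, rfl, hk3⟩ := opcS hk2
          obtain ⟨a4, r4, rfl, hk4⟩ := opcS hk3
          obtain ⟨a5, r5, rfl, hk5⟩ := opcS hk4
          obtain rfl := opc0 hk5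
          have h1 := der_free h hC (by omega) a (by omega) b (by omega)
          rcases free_ft a b with e | e
          · rw [e] at h1
            have e' : lineO g π 5 a b c d = impT (allT a (impT b c)) (impT b (allT a c)) := by
              rw [lineO, if_pos e]
            rw [e'] at hr ⊢
            exact l5a h hC g π a b c d a1 a2 a3 a4 a5 hg hj hr h1
          · rw [e] at h1
            have e' : lineO g π 5 a b c d = dflt := by
              rw [lineO, if_neg (by rw [e]; simp)]
            rw [e'] at hr ⊢
            exact l5b h hC g π a b c d a1 a2 a3 a4 a5 hg hj hr h1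
        · -- 6
          obtain ⟨a1, r1, rfl, hk1⟩ := opcS hk
          obtain ⟨a2, r2, rfl, hk2⟩ := opcS hk1
          obtain ⟨a3, r3, rfl, hk3⟩ := opcS hk2
          obtain ⟨a4, r4, rfl, hk4⟩ := opcS hk3
          obtain ⟨a5, r5, rfl, hk5⟩ := opcS hk4
          obtain ⟨a6, r6, rfl, hk6⟩ := opcS hk5
          obtain rfl := opc0 hk6
          exact l6 h hC g π a b c d a1 a2 a3 a4 a5 a6 hg hj hr
        · -- 7
          obtain ⟨a1, r1, rfl, hk1⟩ := opcS hk
          obtain ⟨a2, r2, rfl, hk2⟩ := opcS hk1
          obtain ⟨a3, r3, rfl, hk3⟩ := opcS hk2
          obtain ⟨a4, r4, rfl, hk4⟩ := opcS hk3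
          obtain ⟨a5, r5, rfl, hk5⟩ := opcS hk4
          obtain ⟨a6, r6, rfl, hk6⟩ := opcS hk5
          obtain ⟨a7, r7, rfl, hk7⟩ := opcS hk6
          obtain rfl := opc0 hk7
          match d, hj, hj', hr with
          | nil, hj, hj', hr =>
            exact l7a h hC g π a b c a1 a2 a3 a4 a5 a6 a7 hg hj hr
          | node nil y, hj, hj', hr =>
            exact l7b h hC g π a b c y a1 a2 a3 a4 a5 a6 a7 hg hj hr
          | node (node v vs) ws, hj, hj', hr =>
            simp only [Tree.size] at hj'
            have h1 := der_sw h hC (by omega) (node a b) (by simp only [Tree.size]; omega)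
              (node v vs) ws (by simp only [Tree.size]; omega) (by omega)
            rcases sw_ft (node a b) (node v vs) ws with e | e
            · rw [e] at h1
              have e' : lineO g π 7 a b c (node (node v vs) ws) = dflt := by
                rw [lineO, if_pos e]
              rw [e'] at hr ⊢
              exact l7c h hC g π a b c v vs ws a1 a2 a3 a4 a5 a6 a7 hg hj hr h1
            · rw [e] at h1
              have e' : lineO g π 7 a b c (node (node v vs) ws) = impT (eqA a b)
                  (impT (node nil (node c (node v vs))) (node nil (node c ws))) := by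
                rw [lineO, if_neg (by rw [e]; simp)]
              rw [e'] at hr ⊢
              exact l7d h hC g π a b c v vs ws a1 a2 a3 a4 a5 a6 a7 hg hj hr h1
        · -- 8
          obtain ⟨a1, r1, rfl, hk1⟩ := opcS hk
          obtain ⟨a2, r2, rfl, hk2⟩ := opcS hk1
          obtain ⟨a3, r3, rfl, hk3⟩ := opcS hk2
          obtain ⟨a4, r4, rfl, hk4⟩ := opcS hk3
          obtain ⟨a5, r5, rfl, hk5⟩ := opcS hk4
          obtain ⟨a6, r6, rfl, hk6⟩ := opcS hk5
          obtain ⟨a7, r7, rfl, hk7⟩ := opcS hk6
          obtain ⟨a8, r8, rfl, hk8⟩ := opcS hk7
          obtain rfl := opc0 hk8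
          have s1 := nth_le π a
          have s2 := nth_le π b
          have h1 := der_nth h hC (by omega) π a (by omega) (by omega)
          have h2 := der_nth h hC (by omega) π b (by omega) (by omega)
          have h3 := der_eq h hC (by omega) (nthT π a) (impT (nthT π b) c) (by omega)
            (by simp only [Tree.size]; omega)
          rcases eq_ft (nthT π a) (impT (nthT π b) c) with e | e
          · rw [e] at h3
            have e' : lineO g π 8 a b c d = dflt := by rw [lineO, if_pos e]
            rw [e'] at hr ⊢
            exact l8a h hC g π a b c d _ _ a1 a2 a3 a4 a5 a6 a7 a8 hg hj hr s1 s2 h1 h2 h3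
          · rw [e] at h3
            have e' : lineO g π 8 a b c d = c := by
              rw [lineO, if_neg (by rw [e]; simp)]
            rw [e'] at hr ⊢
            exact l8b h hC g π a b c d _ _ a1 a2 a3 a4 a5 a6 a7 a8 hg hj hr s1 s2 h1 h2 h3
      · obtain ⟨a1, r1, rfl, ho1⟩ := opcG ho
        obtain ⟨a2, r2, rfl, ho2⟩ := opcG ho1
        obtain ⟨a3, r3, rfl, ho3⟩ := opcG ho2
        obtain ⟨a4, r4, rfl, ho4⟩ := opcG ho3
        obtain ⟨a5, r5, rfl, ho5⟩ := opcG ho4
        obtain ⟨a6, r6, rfl, ho6⟩ := opcG ho5
        obtain ⟨a7, r7, rfl, ho7⟩ := opcG ho6
        obtain ⟨a8, r8, rfl, ho8⟩ := opcG ho7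
        obtain ⟨a9, r9, rfl, ho9⟩ := opcG ho8
        have s2 := nth_le π b
        have h2 := der_nth h hC (by omega) π b (by omega) (by omega)
        exact l9 h hC g π a b c d _ a1 a2 a3 a4 a5 a6 a7 a8 a9 r9 hg hj hr s2 h2

end

/-! ### Bounds -/

theorem subV_le (x y : Tree) : ∀ a : Tree, (subV x y a).size ≤ a.size * (y.size + 1)
  | nil => by rw [subV]; simp [Tree.size]
  | node v r => by
      have h := subV_le x y r
      rw [subV]
      split_ifs
      · simp only [Tree.size]
        nlinarith [Nat.zero_le (v.size * y.size), Nat.zero_le y.size]
      · simp only [Tree.size]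
        nlinarith [Nat.zero_le (v.size * y.size), Nat.zero_le y.size, Nat.zero_le v.size]

theorem subT_le (x y : Tree) : ∀ a : Tree, (subT x y a).size ≤ a.size * (y.size + 1)
  | nil => by rw [subT]; simp [Tree.size]
  | node t nil => by
      rw [subT]
      nlinarith [Nat.zero_le ((node t nil).size * y.size)]
  | node nil (node k vs) => by
      have h := subV_le x y vs
      rw [subT]
      simp only [Tree.size]
      nlinarith [Nat.zero_le (k.size * y.size), Nat.zero_le y.size]
  | node (node nil c) (node a b) => by
      have h1 := subT_le x y a
      have h2 := subT_le x y b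
      rw [subT]
      simp only [Tree.size]
      nlinarith [Nat.zero_le (c.size * y.size), Nat.zero_le y.size]
  | node (node (node p q) c) (node u a) => by
      have h1 := subT_le x y a
      rw [subT]
      split_ifs
      · simp only [Tree.size]
        nlinarith [Nat.zero_le (c.size * y.size), Nat.zero_le y.size, Nat.zero_le (p.size * y.size),
          Nat.zero_le (q.size * y.size), Nat.zero_le (u.size * y.size)]
      · nlinarith [Nat.zero_le ((node (node (node p q) c) (node u a)).size * y.size)]

theorem lineO_le (g π : Tree) (n L : ℕ) (hg : g.size ≤ n) (hπ : ∀ b, (nthT π b).size ≤ L) (k : ℕ)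
    (a b c d : Tree) (hn : a.size + b.size + c.size + d.size ≤ n) :
    (lineO g π k a b c d).size ≤ L + 8 * (n + 2) ^ 2 := by
  have h9 : (nthT π b).size ≤ L := hπ b
  have hdf : dflt.size ≤ L + 8 * (n + 2) ^ 2 := by
    simp only [Tree.size]
    nlinarith
  have hq : 3 * n + 30 ≤ 8 * (n + 2) ^ 2 := by nlinarith
  rcases Nat.lt_or_ge k 9 with hk | hk
  · interval_cases k
    · rw [lineO]
      split_ifs
      · exact hdf
      · have := nth_le g a
        omega
    · rw [lineO]; simp only [Tree.size]; omega
    · rw [lineO]; simp only [Tree.size]; omega
    · rw [lineO]; simp only [Tree.size]; omega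
    · rw [lineO]
      split_ifs
      · exact hdf
      · have h1 := subT_le a b c
        have h2 : c.size * (b.size + 1) ≤ n * (n + 1) := Nat.mul_le_mul (by omega) (by omega)
        simp only [Tree.size]
        nlinarith
    · rw [lineO]
      split_ifs
      · simp only [Tree.size]; omega
      · exact hdf
    · rw [lineO]; simp only [Tree.size]; omega
    · match d, hn with
      | nil, hn => exact hdf
      | node nil y, hn => exact hdf
      | node (node v vs) ws, hn =>
        rw [lineO]
        split_ifs
        · exact hdf
        · simp only [Tree.size] at hn ⊢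
          omega
    · rw [lineO]
      split_ifs
      · exact hdf
      · omega
  · obtain ⟨k', rfl⟩ := Nat.exists_eq_add_of_le hk
    have e : lineO g π (9 + k') a b c d = allT a (nthT π b) := by
      rw [Nat.add_comm 9 k']
      rfl
    rw [e]
    simp only [Tree.size]
    omega

theorem lineT_le (g π : Tree) (n L : ℕ) (hg : g.size ≤ n) (hπ : ∀ b, (nthT π b).size ≤ L) :
    ∀ j : Tree, j.size ≤ n → (lineT g π j).size ≤ L + 8 * (n + 2) ^ 2
  | nil, _ => by
      rw [show lineT g π nil = dflt from rfl]
      simp only [Tree.size]
      nlinarith
  | node o nil, _ => by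
      rw [show lineT g π (node o nil) = dflt from rfl]
      simp only [Tree.size]
      nlinarith
  | node o (node a nil), _ => by
      rw [show lineT g π (node o (node a nil)) = dflt from rfl]
      simp only [Tree.size]
      nlinarith
  | node o (node a (node b nil)), _ => by
      rw [show lineT g π (node o (node a (node b nil))) = dflt from rfl]
      simp only [Tree.size]
      nlinarith
  | node o (node a (node b (node c d))), hj => by
      rw [lineT_eq]
      simp only [Tree.size] at hj
      exact lineO_le g π n L hg hπ _ a b c d (by omega)

theorem nth_node (a r : Tree) (L : ℕ) (ha : a.size ≤ L) (hr : ∀ b, (nthT r b).size ≤ L) :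
    ∀ b, (nthT (node a r) b).size ≤ L
  | nil => by rw [nthT]; exact ha
  | node c i => by
      cases r with
      | nil => rw [nthT]; exact ha
      | node p q => rw [nthT]; exact hr i

theorem run_le (g : Tree) (n : ℕ) (hg : g.size ≤ n) : ∀ l : Tree, l.size ≤ n →
    (∀ b, (nthT (runT g l) b).size ≤ (l.size + 1) * (8 * (n + 2) ^ 2)) ∧
    (runT g l).size ≤ (l.size + 1) * ((l.size + 1) * (8 * (n + 2) ^ 2) + 1)
  | nil, _ => by
      rw [runT]
      have h4 : 4 ≤ 8 * (n + 2) ^ 2 := by nlinarith
      constructor
      · refine nth_node _ _ _ ?_ ?_
        · simp only [Tree.size]; omega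
        · intro b; rw [nthT]; simp [Tree.size]
      · simp only [Tree.size]; omega
  | node j r, hl => by
      simp only [Tree.size] at hl
      obtain ⟨h1, h2⟩ := run_le g n hg r (by omega)
      have h3 := lineT_le g (runT g r) n _ hg h1 j (by omega)
      rw [runT]
      set F := 8 * (n + 2) ^ 2 with hF
      have h5 : (lineT g (runT g r) j).size ≤ (r.size + 2) * F := by nlinarith
      have h6 : (r.size + 2) * F ≤ (j.size + r.size + 1 + 1) * F :=
        Nat.mul_le_mul_right _ (by omega)
      have h7 : (r.size + 1) * F ≤ (r.size + 2) * F := Nat.mul_le_mul_right _ (by omega)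
      constructor
      · simp only [Tree.size]
        exact nth_node _ _ _ (by omega) (fun b => (h1 b).trans (by omega))
      · simp only [Tree.size]
        have h8 : (r.size + 1) * ((r.size + 1) * F + 1) ≤
            (r.size + 1) * ((j.size + r.size + 1 + 1) * F + 1) :=
          Nat.mul_le_mul_left _ (by omega)
        have h9 : (r.size + 2) * ((j.size + r.size + 1 + 1) * F + 1) ≤
            (j.size + r.size + 1 + 1) * ((j.size + r.size + 1 + 1) * F + 1) :=
          Nat.mul_le_mul_right _ (by omega)
        calc (lineT g (runT g r) j).size + (runT g r).size + 1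
            ≤ (j.size + r.size + 1 + 1) * F +
              (r.size + 1) * ((j.size + r.size + 1 + 1) * F + 1) + 1 := by omega
          _ = (r.size + 2) * ((j.size + r.size + 1 + 1) * F + 1) := by ring
          _ ≤ _ := h9

theorem run_size (g l : Tree) : (runT g l).size ≤ pb 9 (g.size + l.size) := by
  have h := (run_le g (g.size + l.size) (by omega) l (by omega)).2
  refine h.trans ?_
  set n := g.size + l.size with hn
  have h1 : l.size + 1 ≤ n + 2 := by omega
  calc (l.size + 1) * ((l.size + 1) * (8 * (n + 2) ^ 2) + 1)
      ≤ (n + 2) * ((n + 2) * (8 * (n + 2) ^ 2) + 1) :=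
        Nat.mul_le_mul h1 (by have := Nat.mul_le_mul_right (8 * (n + 2) ^ 2) h1; omega)
    _ ≤ (n + 2) * ((n + 2) * ((n + 2) ^ 3 * (n + 2) ^ 2) + (n + 2) ^ 6) := by
        refine Nat.mul_le_mul_left _ (Nat.add_le_add ?_ (Nat.one_le_pow _ _ (by omega)))
        refine Nat.mul_le_mul_left _ (Nat.mul_le_mul_right _ ?_)
        calc 8 = 2 ^ 3 := by norm_num
          _ ≤ (n + 2) ^ 3 := Nat.pow_le_pow_left (by omega) 3
    _ = 2 * (n + 2) ^ 7 := by ring
    _ ≤ (n + 2) * (n + 2) ^ 7 := Nat.mul_le_mul_right _ (by omega)
    _ = (n + 2) ^ 8 := by ring
    _ ≤ (n + 2) ^ 9 := Nat.pow_le_pow_right (by omega) (by omega)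
    _ = pb 9 n := rfl

section

variable {Cs : List Cl} {N : List At} {ν : Tree → ℕ} {M K : ℕ}

theorem der_run (h : Ctx N ν M K) (hC : ∀ c ∈ clTree, c ∈ Cs) (g : Tree) : ∀ l : Tree,
    g.size + l.size + (runT g l).size + 10 ≤ K →
    Der Cs N N.length (o3 iRun (ν g) (ν l) (ν (runT g l)))
  | nil, hr => by
      rw [show runT g nil = node dflt nil by rw [runT]] at hr ⊢
      simp only [Tree.size] at hr
      refine stp h hC (mLine 21 rfl) [(0, g), (41, tt), (42, node nil tt),
        (43, node nil (node nil tt)), (44, dflt), (45, node dflt nil)] ?_ ?_ rfl
      · simp only [List.forall_mem_cons, List.not_mem_nil, false_imp_iff, implies_true, and_true,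
          Tree.size]
        omega
      · intro hn hz
        repeat (first
          | exact allnil
          | refine allcons (by first | exact hn _ _ _ rfl | exact hz _ rfl | assumption) ?_)
  | node j r, hr => by
      rw [show runT g (node j r) = node (lineT g (runT g r) j) (runT g r) by rw [runT]] at hr ⊢
      simp only [Tree.size] at hr
      have h1 := der_run h hC g r (by omega)
      have h2 := der_line h hC g (runT g r) (by omega) j (by omega) (by omega)
      refine stp h hC (mLine 22 rfl) [(0, g), (1, j), (2, r), (3, node j r), (4, runT g r),
        (5, lineT g (runT g r) j), (6, node (lineT g (runT g r) j) (runT g r))] ?_ ?_ rfl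
      · simp only [List.forall_mem_cons, List.not_mem_nil, false_imp_iff, implies_true, and_true,
          Tree.size]
        omega
      · intro hn hz
        repeat (first
          | exact allnil
          | refine allcons (by first | exact hn _ _ _ rfl | exact hz _ rfl | assumption) ?_)

end

theorem sRun : SRun := by
  refine ⟨11, fun Cs N ν M K hC h g l hK => ?_⟩
  have h1 := run_size g l
  set n := g.size + l.size with hn
  have h2 : pb 9 n + n + 10 ≤ pb 11 n := by
    have e1 : pb 11 n = pb 9 n * (n + 2) ^ 2 := by rw [pb, pb]; ring
    have e2 : n + 2 ≤ pb 9 n := by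
      calc n + 2 = (n + 2) ^ 1 := by ring
        _ ≤ (n + 2) ^ 9 := Nat.pow_le_pow_right (by omega) (by omega)
    have e3 : 512 ≤ pb 9 n := by
      calc 512 = 2 ^ 9 := by norm_num
        _ ≤ (n + 2) ^ 9 := Nat.pow_le_pow_left (by omega) 9
    have e4 : 4 ≤ (n + 2) ^ 2 := by nlinarith
    have e5 : pb 9 n * 4 ≤ pb 9 n * (n + 2) ^ 2 := Nat.mul_le_mul_left _ e4
    omega
  exact ⟨by omega, der_run h hC g l (by omega)⟩

end Pool.Agent.T9h96.IO
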